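import Pool.Agent.H51.N15.Rank

/-!
# The curve `X_0(15)`: rank zero and `Ш[2] = 0`
-/

set_option autoImplicit false

namespace Pool.Agent.H51.N15

open Pool.Agent.N875.X15
open Pool.Agent.H3.X15
open Pool.Agent.W262.SH (Sha)

open scoped Classical

theorem pairs_one {e1 e2 : ℤ} (q1 : Squarefree e1) (q2 : Squarefree e2)
    (hp : ∀ (p : ℕ) [Fact p.Prime], LocU ℚ_[p] 1 e1 e2) (hR : LocU ℝ 1 e1 e2) :
    (e1 = 1 ∧ e2 = 1) ∨ (e1 = 5 ∧ e2 = 1) ∨ (e1 = -1 ∧ e2 = -1) ∨ (e1 = -5 ∧ e2 = -1) := by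
  have hpos := loc_real (m := 1) (by norm_num) q1.ne_zero q2.ne_zero hR
  obtain ⟨t21, t22, t212⟩ := loc_two (m := 1) (by norm_num) q1 q2 (hp 2)
  obtain ⟨t31, t32⟩ := loc_three (m := 1) (by norm_num) q1 q2 (hp 3)
  obtain ⟨t52, -⟩ := loc_five (m := 1) (by norm_num) q2 (hp 5)
  have hgood : ∀ q : ℕ, q.Prime → (q ≠ 5 → ¬ (q : ℤ) ∣ e1) ∧ ¬ (q : ℤ) ∣ e2 := by
    intro q hq
    have : Fact q.Prime := ⟨hq⟩
    by_cases hq2 : q = 2
    · subst hq2
      exact ⟨fun _ => by exact_mod_cast t21, by exact_mod_cast t22⟩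
    by_cases hq3 : q = 3
    · subst hq3
      exact ⟨fun _ => by exact_mod_cast t31, by exact_mod_cast t32⟩
    by_cases hq5 : q = 5
    · subst hq5
      exact ⟨fun h => absurd rfl h, by exact_mod_cast t52⟩
    have h := loc_good hq2 hq3 hq5 (m := 1) (fun hd => by
      have h1 := Int.le_of_dvd one_pos hd
      have h2 := hq.two_le
      omega) q1 q2 (hp q)
    exact ⟨fun _ => h.1, h.2⟩
  have h2 : e2.natAbs = 1 := by
    by_contra hne
    obtain ⟨q, hq, hqe⟩ := Nat.exists_prime_and_dvd hne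
    exact (hgood q hq).2 (Int.natCast_dvd.2 hqe)
  have h1 : e1.natAbs ∣ 5 := dvd_of_pf q1 (by norm_num : Nat.Prime 5).squarefree
    fun q hq hqe => by
      by_cases hq5 : q = 5
      · rw [hq5]
      · exact absurd hqe ((hgood q hq).1 hq5)
  have h1' : e1.natAbs = 1 ∨ e1.natAbs = 5 :=
    (Nat.dvd_prime (by norm_num)).1 h1
  have h2' : e2 = 1 ∨ e2 = -1 := by omega
  rcases h2' with rfl | rfl
  · have : 0 < e1 := by linarith
    omega
  · have : e1 < 0 := by linarith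
    omega

/-- **The curve `X_0(15)`.** -/
theorem rank_one :
    Module.finrank ℤ (EZ 1).toAffine.Point = 0 ∧ Finite (EZ 1).toAffine.Point ∧
      ∀ x : Sha (EZ 1), x + x = 0 → x = 0 := by
  refine rank_of one_ne_zero
    ({((1 : ℤ), (1 : ℤ)), (5, 1), (-1, -1), (-5, -1)} : Finset (ℤ × ℤ))
    Finset.card_le_four ?_
  intro e1 e2 q1 q2 hp hR
  have := pairs_one q1 q2 hp hR
  simp only [Finset.mem_insert, Finset.mem_singleton, Prod.mk.injEq]
  exact this

end Pool.Agent.H51.N15
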