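import Pool.Agent.H51.N15.Dens
import Pool.Agent.H51.N15.One
import Pool.Agent.H82.AJ.Main

/-!
# The Abel–Jacobi map of `X_0(15)` over imaginary quadratic fields
-/

set_option autoImplicit false

namespace Pool.Agent.H51.N15

open NumberField
open Pool.Agent.H82.AJ
open Pool.Agent.N856.MT (EK)
open scoped Classical

/-- the conditions over `ℚ` -/
theorem p0_of {m : ℤ} (h : Module.finrank ℤ (EZ m).toAffine.Point = 0 ∧
      Finite (EZ m).toAffine.Point ∧
      ∀ x : Pool.Agent.W262.SH.Sha (EZ m), x + x = 0 → x = 0) :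
    P0 (-12987 * m ^ 2) (-263466 * m ^ 3) := by
  obtain ⟨-, h4, h2⟩ := h
  refine ⟨h4, fun x hx => ?_⟩
  let e := Pool.Agent.TH841.SH.D.eSha (EK ℚ (-12987 * m ^ 2) (-263466 * m ^ 3))
  have h3 : e x = 0 := h2 _ (by
    show e x + e x = 0
    rw [← map_add, hx, map_zero])
  exact (AddEquiv.map_eq_zero_iff e).1 h3

/-- the conditions over `ℚ` for the twist by `-n` -/
theorem p0_neg {n : ℕ} (hn : Fund n) (h3 : n % 3 ≠ 1) (h5 : n % 5 ≠ 1 ∧ n % 5 ≠ 4)
    (hG : Good n) : P0 (-12987 * (-(core n : ℤ)) ^ 2) (-263466 * (-(core n : ℤ)) ^ 3) := by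
  rcases hn with ⟨h1, h2⟩ | h1
  · have hcore : core n = n := by
      unfold core
      rw [if_neg (by omega)]
    rw [hcore]
    exact p0_of (rank_sha h1 h2 h3 h5 ((good_odd h1 h2).1 hG))
  · have hQ := (good_even h1).1 hG
    obtain ⟨N, rfl, hN, h4⟩ := h1
    have hcore : core (4 * N) = N := by
      unfold core
      rw [if_pos (by omega)]
      omega
    rw [hcore]
    exact p0_of (rank_shaE hN h4 (by omega) (by omega) hQ)

theorem core_sqf {n : ℕ} (hn : Fund n) : Squarefree (core n) := by
  unfold core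
  rcases hn with ⟨h1, h2⟩ | ⟨N, rfl, h1, -⟩
  · rw [if_neg (by omega)]
    exact h1
  · rw [if_pos (by omega)]
    have : 4 * N / 4 = N := by omega
    rwa [this]

/-- **The Abel–Jacobi map over the quadratic field.** -/
theorem aj_field {n : ℕ} (hn : Fund n) (h3 : n % 3 ≠ 1) (h5 : n % 5 ≠ 1 ∧ n % 5 ≠ 4)
    (hG : Good n) (K : Type) [Field K] [NumberField K] (r : K) (hr : r ^ 2 = -(core n : K))
    (hgen : IntermediateField.adjoin ℚ {r} = ⊤) :
    AJ0 K (EK K (-12987 * 1 ^ 2) (-263466 * 1 ^ 3)) := by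
  have hsq := core_sqf hn
  have hN0 : core n ≠ 0 := hsq.ne_zero
  refine aj_twists (F := K) (a₀ := -12987) (b₀ := -263466) (by norm_num)
    (Ok := fun e => P0 (-12987 * e ^ 2) (-263466 * e ^ 3)) (fun e _ h => h) (d := 1)
    one_ne_zero (k := 1) (r := fun _ => r) (m := fun _ => -(core n : ℤ)) (fun _ => ?_)
    (fun _ => neg_ne_zero.2 (by exact_mod_cast hN0)) ?_ ?_
  · rw [hr]
    push_cast
    rfl
  · rw [← hgen]
    congr 1
    ext x
    simp
  · intro T e g he heg
    rcases T.eq_empty_or_nonempty with rfl | ⟨i, hi⟩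
    · rw [Finset.prod_empty, mul_one] at heg
      have h1 : e = 1 := by
        rcases Int.eq_one_or_neg_one_of_mul_eq_one heg.symm with h | h
        · exact h
        · rw [h] at heg
          nlinarith [sq_nonneg g]
      rw [h1]
      exact p0_of rank_one
    · have hT : T = {i} := by
        ext j
        rw [Subsingleton.elim j i, Finset.mem_singleton]
        exact ⟨fun _ => rfl, fun _ => hi⟩
      rw [hT, Finset.prod_singleton, one_mul] at heg
      have hg : IsUnit g := by
        have h1 : g.natAbs * g.natAbs ∣ core n := by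
          have h2 : ((g.natAbs * g.natAbs : ℕ) : ℤ) ∣ ((core n : ℕ) : ℤ) := by
            have h3 : ((g.natAbs * g.natAbs : ℕ) : ℤ) = g * g := by
              push_cast
              exact abs_mul_abs_self g
            rw [h3]
            exact ⟨-e, by linarith⟩
          exact Int.natCast_dvd_natCast.1 h2
        rw [Int.isUnit_iff_natAbs_eq]
        exact Nat.isUnit_iff.1 (hsq _ h1)
      have hg2 : g ^ 2 = 1 := by
        rcases Int.isUnit_iff.1 hg with h | h <;> rw [h] <;> norm_num
      rw [hg2, mul_one] at heg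
      rw [← heg]
      exact p0_neg hn h3 h5 hG

end Pool.Agent.H51.N15
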