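import Pool.Agent.H51.N15.Loc

/-!
# The local conditions at all odd primes dividing the twisting factor, `3` and `5` included
-/

set_option autoImplicit false

namespace Pool.Agent.H51.N15

open Pool.Agent.N875.X15
open Pool.Agent.H3.X15

/-- the classes from the four cases -/
theorem bad_of_key {p : ℕ} [hp : Fact p.Prime] {m e1 e2 : ℤ} (hmK : (m : ℚ_[p]) ≠ 0)
    {u : ℚ_[p]} (hu : u ≠ 0) (hv : u + 9 * m ≠ 0) (hw : u - 16 * m ≠ 0)
    (hs : IsSquare (u * (u + 9 * m) * (u - 16 * m)))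
    (s1 : IsSquare ((u - 16 * m) * (e1 : ℚ_[p]))) (s2 : IsSquare (u * (e2 : ℚ_[p])))
    (key : (IsSquare u ∧ IsSquare (u + 9 * m)) ∨
      (IsSquare ((u + 9 * m) * (u + 9 * m - u)) ∧ IsSquare ((u - 16 * m) * (u - 16 * m - u))) ∨
      (IsSquare (u * (u - (u + 9 * m))) ∧
        IsSquare ((u - 16 * m) * (u - 16 * m - (u + 9 * m)))) ∨
      (IsSquare (u * (u - (u - 16 * m))) ∧
        IsSquare ((u + 9 * m) * (u + 9 * m - (u - 16 * m))))) :
    (IsSquare (e1 : ℚ_[p]) ∧ IsSquare (e2 : ℚ_[p])) ∨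
    (IsSquare ((e1 : ℚ_[p])) ∧ IsSquare ((e2 * m : ℤ) : ℚ_[p])) ∨
    (IsSquare ((e1 * -m : ℤ) : ℚ_[p]) ∧ IsSquare ((-e2 : ℤ) : ℚ_[p])) ∨
    (IsSquare ((e1 * -m : ℤ) : ℚ_[p]) ∧ IsSquare ((-(e2 * m) : ℤ) : ℚ_[p])) := by
  -- the square factors
  have fac : ∀ (x : ℚ_[p]) (r : ℚ_[p]) (y : ℚ_[p]), r ≠ 0 → IsSquare (x * (r * r * y)) →
      IsSquare (x * y) := by
    intro x r y hr hx
    refine sq_cancel (mul_ne_zero hr hr) ⟨r, rfl⟩ ?_
    have e : r * r * (x * y) = x * (r * r * y) := by ring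
    rwa [e]
  have z3 : (3 : ℚ_[p]) ≠ 0 := by norm_num
  have z4 : (4 : ℚ_[p]) ≠ 0 := by norm_num
  have z5 : (5 : ℚ_[p]) ≠ 0 := by norm_num
  -- classes of `v` and `w` give those of `u`
  have hs' : ∀ {x y : ℚ_[p]}, IsSquare ((u + 9 * m) * x) → IsSquare ((u - 16 * m) * y) →
      IsSquare (u * (x * y)) := by
    intro x y hx hy
    have h6 : IsSquare (((u + 9 * m) * x * ((u - 16 * m) * y)) *
      (u * (u + 9 * m) * (u - 16 * m))) := (hx.mul hy).mul hs
    refine sq_cancel (x := ((u + 9 * m) * (u - 16 * m)) * ((u + 9 * m) * (u - 16 * m)))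
      (mul_ne_zero (mul_ne_zero hv hw) (mul_ne_zero hv hw)) ⟨_, rfl⟩ ?_
    have e : (u + 9 * (m : ℚ_[p])) * (u - 16 * m) * ((u + 9 * m) * (u - 16 * m)) * (u * (x * y)) =
      ((u + 9 * m) * x * ((u - 16 * m) * y)) * (u * (u + 9 * m) * (u - 16 * m)) := by ring
    rwa [e]
  have hs'' : ∀ {x y : ℚ_[p]}, IsSquare ((u + 9 * m) * x) → IsSquare (u * y) →
      IsSquare ((u - 16 * m) * (x * y)) := by
    intro x y hx hy
    have h6 : IsSquare (((u + 9 * m) * x * (u * y)) *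
      (u * (u + 9 * m) * (u - 16 * m))) := (hx.mul hy).mul hs
    refine sq_cancel (x := ((u + 9 * m) * u) * ((u + 9 * m) * u))
      (mul_ne_zero (mul_ne_zero hv hu) (mul_ne_zero hv hu)) ⟨_, rfl⟩ ?_
    have e : (u + 9 * (m : ℚ_[p])) * u * ((u + 9 * m) * u) * ((u - 16 * m) * (x * y)) =
      ((u + 9 * m) * x * (u * y)) * (u * (u + 9 * m) * (u - 16 * m)) := by ring
    rwa [e]
  have gw : ∀ x : ℚ_[p], IsSquare ((u - 16 * m) * x) → IsSquare (e1 * x) := fun x hx =>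
    sq_trans hw (by rwa [mul_comm]) hx
  have gu : ∀ x : ℚ_[p], IsSquare (u * x) → IsSquare (e2 * x) := fun x hx =>
    sq_trans hu (by rwa [mul_comm]) hx
  rcases key with ⟨ku, kv⟩ | ⟨kv, kw⟩ | ⟨ku, kw⟩ | ⟨ku, kv⟩
  · left
    have a1 : IsSquare (u * 1) := by rwa [mul_one]
    have a2 : IsSquare ((u + 9 * m) * 1) := by rwa [mul_one]
    have a3 := hs'' a2 a1
    rw [one_mul] at a3
    have b1 := gw 1 a3
    have b2 := gu 1 a1
    rw [mul_one] at b1 b2
    exact ⟨b1, b2⟩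
  · -- `T2`
    right; right; left
    have a1 : IsSquare ((u + 9 * (m : ℚ_[p])) * m) := by
      apply fac _ 3 _ z3
      have e : (3 : ℚ_[p]) * 3 * m = u + 9 * m - u := by ring
      rwa [e]
    have a2 : IsSquare ((u - 16 * (m : ℚ_[p])) * (-m)) := by
      apply fac _ 4 _ z4
      have e : (4 : ℚ_[p]) * 4 * (-m) = u - 16 * m - u := by ring
      rwa [e]
    have a3 : IsSquare (u * (-1)) := by
      have h6 := hs' a1 a2
      apply fac _ (m : ℚ_[p]) _ hmK
      have e : (m : ℚ_[p]) * m * (-1) = m * -m := by ring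
      rwa [e]
    refine ⟨?_, ?_⟩
    · have := gw _ a2
      push_cast
      exact this
    · have := gu _ a3
      rw [mul_neg_one] at this
      push_cast
      exact this
  · -- `T3`
    right; right; right
    have a1 : IsSquare (u * (-(m : ℚ_[p]))) := by
      apply fac _ 3 _ z3
      have e : (3 : ℚ_[p]) * 3 * (-m) = u - (u + 9 * m) := by ring
      rwa [e]
    have a2 : IsSquare ((u - 16 * (m : ℚ_[p])) * (-m)) := by
      apply fac _ 5 _ z5
      have e : (5 : ℚ_[p]) * 5 * (-m) = u - 16 * m - (u + 9 * m) := by ring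
      rwa [e]
    refine ⟨?_, ?_⟩
    · have := gw _ a2
      push_cast
      exact this
    · have := gu _ a1
      rw [mul_neg] at this
      push_cast
      exact this
  · -- `T1`
    right; left
    have a1 : IsSquare (u * (m : ℚ_[p])) := by
      apply fac _ 4 _ z4
      have e : (4 : ℚ_[p]) * 4 * m = u - (u - 16 * m) := by ring
      rwa [e]
    have a2 : IsSquare ((u + 9 * (m : ℚ_[p])) * m) := by
      apply fac _ 5 _ z5
      have e : (5 : ℚ_[p]) * 5 * m = u + 9 * m - (u - 16 * m) := by ring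
      rwa [e]
    have a3 : IsSquare ((u - 16 * (m : ℚ_[p])) * 1) := by
      have h6 := hs'' a2 a1
      apply fac _ (m : ℚ_[p]) _ hmK
      rwa [mul_one]
    refine ⟨?_, ?_⟩
    · have := gw _ a3
      rwa [mul_one] at this
    · have := gu _ a1
      push_cast
      exact this

/-- the primes dividing `m` -/
theorem loc_bad_all {p : ℕ} [hp : Fact p.Prime] (h2 : p ≠ 2) {m e1 e2 : ℤ}
    (hmq : Squarefree m) (hm : (p : ℤ) ∣ m) (h : LocU ℚ_[p] m e1 e2) :
    (IsSquare (e1 : ℚ_[p]) ∧ IsSquare (e2 : ℚ_[p])) ∨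
    (IsSquare ((e1 : ℚ_[p])) ∧ IsSquare ((e2 * m : ℤ) : ℚ_[p])) ∨
    (IsSquare ((e1 * -m : ℤ) : ℚ_[p]) ∧ IsSquare ((-e2 : ℤ) : ℚ_[p])) ∨
    (IsSquare ((e1 * -m : ℤ) : ℚ_[p]) ∧ IsSquare ((-(e2 * m) : ℤ) : ℚ_[p])) := by
  by_cases h3 : p = 3
  · subst h3
    obtain ⟨u, hu, hv, hw, hs, s1, s2⟩ := h
    have hm0 : m ≠ 0 := hmq.ne_zero
    have hmK : (m : ℚ_[3]) ≠ 0 := by exact_mod_cast hm0
    have vm : (m : ℚ_[3]).valuation = 1 := val_dvd (p := 3) hmq hm
    have d1 : u + 9 * (m : ℚ_[3]) - u = 9 * m := by ring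
    have d2 : u - 16 * (m : ℚ_[3]) - u = ((-16 : ℤ) : ℚ_[3]) * m := by push_cast; ring
    have d3 : u - 16 * (m : ℚ_[3]) - (u + 9 * (m : ℚ_[3])) = ((-25 : ℤ) : ℚ_[3]) * m := by
      push_cast; ring
    have w1 : (9 * (m : ℚ_[3])).valuation = 3 := by
      have e9 : (9 : ℚ_[3]) = ((3 : ℕ) : ℚ_[3]) ^ 2 := by norm_num
      rw [Padic.valuation_mul (by norm_num) hmK, vm, e9, Padic.valuation_pow, Padic.valuation_p]
      norm_num
    have w2 : (((-16 : ℤ) : ℚ_[3]) * m).valuation = 1 := by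
      rw [Padic.valuation_mul (by norm_num) hmK, val_int (p := 3) (-16) (by norm_num), vm, zero_add]
    have w3 : (((-25 : ℤ) : ℚ_[3]) * m).valuation = 1 := by
      rw [Padic.valuation_mul (by norm_num) hmK, val_int (p := 3) (-25) (by norm_num), vm, zero_add]
    have key := loc_ram (p := 3) (by norm_num) hu hv hw hs
      (by rw [d1]; exact mul_ne_zero (by norm_num) hmK)
      (by rw [d2]; exact mul_ne_zero (by norm_num) hmK)
      (by rw [d3]; exact mul_ne_zero (by norm_num) hmK)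
      (l := 3) (k := 1) (by rw [d1]; exact w1) (by rw [d2]; exact w2) (by rw [d3]; exact w3)
      (by norm_num) (by decide)
    exact bad_of_key hmK hu hv hw hs s1 s2 key
  by_cases h5 : p = 5
  · subst h5
    obtain ⟨u, hu, hv, hw, hs, s1, s2⟩ := h
    have hm0 : m ≠ 0 := hmq.ne_zero
    have hmK : (m : ℚ_[5]) ≠ 0 := by exact_mod_cast hm0
    have vm : (m : ℚ_[5]).valuation = 1 := val_dvd (p := 5) hmq hm
    have d1 : u - 16 * (m : ℚ_[5]) - (u + 9 * (m : ℚ_[5])) = -25 * m := by ring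
    have d2 : u - (u + 9 * (m : ℚ_[5])) = ((-9 : ℤ) : ℚ_[5]) * m := by push_cast; ring
    have d3 : u - (u - 16 * (m : ℚ_[5])) = ((16 : ℤ) : ℚ_[5]) * m := by
      push_cast; ring
    have w1 : (-25 * (m : ℚ_[5])).valuation = 3 := by
      have e9 : (-25 : ℚ_[5]) = ((-1 : ℤ) : ℚ_[5]) * ((5 : ℕ) : ℚ_[5]) ^ 2 := by norm_num
      rw [Padic.valuation_mul (by norm_num) hmK, vm, e9,
        Padic.valuation_mul (by norm_num) (by norm_num), Padic.valuation_pow,
        Padic.valuation_p, val_int (p := 5) (-1) (by norm_num)]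
      norm_num
    have w2 : (((-9 : ℤ) : ℚ_[5]) * m).valuation = 1 := by
      rw [Padic.valuation_mul (by norm_num) hmK, val_int (p := 5) (-9) (by norm_num), vm, zero_add]
    have w3 : (((16 : ℤ) : ℚ_[5]) * m).valuation = 1 := by
      rw [Padic.valuation_mul (by norm_num) hmK, val_int (p := 5) 16 (by norm_num), vm, zero_add]
    have key := loc_ram (p := 5) (by norm_num) hv hw hu
      (by
        have e : (u + 9 * (m : ℚ_[5])) * (u - 16 * m) * u = u * (u + 9 * m) * (u - 16 * m) := by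
          ring
        rwa [e])
      (by rw [d1]; exact mul_ne_zero (by norm_num) hmK)
      (by rw [d2]; exact mul_ne_zero (by norm_num) hmK)
      (by rw [d3]; exact mul_ne_zero (by norm_num) hmK)
      (l := 3) (k := 1) (by rw [d1]; exact w1) (by rw [d2]; exact w2) (by rw [d3]; exact w3)
      (by norm_num) (by decide)
    refine bad_of_key hmK hu hv hw hs s1 s2 ?_
    rcases key with ⟨a, b⟩ | ⟨a, b⟩ | ⟨a, b⟩ | ⟨a, b⟩
    · left
      refine ⟨?_, a⟩
      refine sq_cancel (x := (u + 9 * (m : ℚ_[5])) * (u - 16 * m)) (mul_ne_zero hv hw) (a.mul b) ?_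
      have e : (u + 9 * (m : ℚ_[5])) * (u - 16 * m) * u = u * (u + 9 * m) * (u - 16 * m) := by
        ring
      rwa [e]
    · exact Or.inr (Or.inr (Or.inl ⟨b, a⟩))
    · exact Or.inr (Or.inr (Or.inr ⟨b, a⟩))
    · exact Or.inr (Or.inl ⟨a, b⟩)
  exact loc_bad h2 h3 h5 hmq hm h

end Pool.Agent.H51.N15
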