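import Pool.Agent.H51.N15.Main
import Pool.Graph.R_pool_sql_team_seeded_63374d34.N855.GF.Sq
import Pool.Graph.R_pool_sql_team_seeded_620a6dc7.H757_X15.DN.Den2

/-!
# The density of the class of the discriminants
-/

set_option autoImplicit false

namespace Pool.Agent.H51.N15

open Finset Filter Topology
open scoped Classical
open Pool.Agent.N855.GF (SQ ff dl lim_set wt RR floor_lim)
open Pool.Agent.H757_X15.DD.DEN2 (gm gm_step gm_thirty)

/-- sixty times the weight of a class modulo `60` -/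
def w60 (a : ℕ) : ℕ := if a % 4 = 0 then 0 else
  ((range 60).filter fun r => Nat.gcd r 60 = 1 ∧
    r % (60 / Nat.gcd a 60) = (a / Nat.gcd a 60) % (60 / Nat.gcd a 60)).card * (60 / Nat.gcd a 60)

theorem sqf60 : ∀ a < 60, (∀ k < 61, k * k ∣ Nat.gcd a 60 → k = 1) ↔ a % 4 ≠ 0 := by
  decide +kernel

theorem wt60 {a : ℕ} (ha : a < 60) : wt 60 a = (w60 a : ℝ) / 60 := by
  have hg0 : 0 < Nat.gcd a 60 := Nat.gcd_pos_of_pos_right a (by norm_num)
  have hgle : Nat.gcd a 60 ≤ 60 := Nat.gcd_le_right a (by norm_num)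
  have h1 : Squarefree (Nat.gcd a 60) ↔ a % 4 ≠ 0 := by
    rw [← sqf60 a ha]
    constructor
    · intro h k _ hk
      exact Nat.isUnit_iff.1 (h k hk)
    · intro h k hk
      rw [Nat.isUnit_iff]
      refine h k ?_ hk
      have h2 := Nat.le_of_dvd hg0 hk
      nlinarith
  unfold wt w60
  by_cases h2 : a % 4 = 0
  · rw [if_neg (fun h3 => h1.1 h3 h2), if_pos h2]
    simp
  · rw [if_pos (h1.2 h2), if_neg h2]
    have h3 : RR 60 a = (range 60).filter fun r => Nat.gcd r 60 = 1 ∧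
        r % (60 / Nat.gcd a 60) = (a / Nat.gcd a 60) % (60 / Nat.gcd a 60) := by
      unfold Pool.Agent.N855.GF.RR
      ext r
      simp only [mem_filter]
    rw [h3]
    have h4 : (Nat.gcd a 60 : ℝ) * ((60 / Nat.gcd a 60 : ℕ) : ℝ) = 60 := by
      rw [← Nat.cast_mul, Nat.mul_div_cancel' (Nat.gcd_dvd_right a 60)]
      norm_num
    have h5 : (Nat.gcd a 60 : ℝ) ≠ 0 := by exact_mod_cast hg0.ne'
    rw [Nat.cast_mul, div_eq_div_iff h5 (by norm_num)]
    linear_combination -(((range 60).filter fun r => Nat.gcd r 60 = 1 ∧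
        r % (60 / Nat.gcd a 60) = (a / Nat.gcd a 60) % (60 / Nat.gcd a 60)).card : ℝ) * h4

theorem ff_gm (s : ℕ) : ff 60 s = gm 30 s := by
  unfold Pool.Agent.N855.GF.ff Pool.Agent.H757_X15.DD.DEN2.gm Pool.Agent.H66R2.RZFI1.mu
  have h : Nat.Coprime s 60 ↔ Nat.Coprime s 30 := by
    constructor
    · intro h
      exact Nat.Coprime.coprime_dvd_right (by norm_num) h
    · intro h
      have h2 : Nat.Coprime s 2 := Nat.Coprime.coprime_dvd_right (by norm_num) h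
      have : (60 : ℕ) = 30 * 2 := by norm_num
      rw [this]
      exact Nat.Coprime.mul_right h h2
  by_cases hc : Nat.Coprime s 60
  · rw [if_pos hc, if_pos (h.1 hc)]
  · rw [if_neg hc, if_neg fun h' => hc (h.2 h')]

theorem dl_eq : dl 60 = 5 / (32 * Real.pi ^ 2) := by
  unfold Pool.Agent.N855.GF.dl
  rw [tsum_congr ff_gm, gm_thirty]
  have hpi : Real.pi ≠ 0 := Real.pi_ne_zero
  push_cast
  field_simp
  norm_num

/-- the residues modulo `60`, odd discriminants -/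
def K1 (R : Finset ℕ) : Finset ℕ := (range 60).filter fun a => a % 4 = 3 ∧ a % 15 ∈ R

/-- the residues modulo `60`, even discriminants -/
def K2 (R : Finset ℕ) : Finset ℕ :=
  (range 60).filter fun a => (a % 4 = 1 ∨ a % 4 = 2) ∧ (4 * a) % 15 ∈ R

theorem mem_K1 {R : Finset ℕ} (n : ℕ) : n % 60 ∈ K1 R ↔ n % 4 = 3 ∧ n % 15 ∈ R := by
  unfold K1
  rw [mem_filter, mem_range]
  have h1 : n % 60 % 4 = n % 4 := by omega
  have h2 : n % 60 % 15 = n % 15 := by omega
  rw [h1, h2]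
  exact ⟨fun h => h.2, fun h => ⟨Nat.mod_lt _ (by norm_num), h⟩⟩

theorem mem_K2 {R : Finset ℕ} (n : ℕ) : n % 60 ∈ K2 R ↔
    (n % 4 = 1 ∨ n % 4 = 2) ∧ (4 * n) % 15 ∈ R := by
  unfold K2
  rw [mem_filter, mem_range]
  have h1 : n % 60 % 4 = n % 4 := by omega
  have h2 : (4 * (n % 60)) % 15 = (4 * n) % 15 := by omega
  rw [h1, h2]
  exact ⟨fun h => h.2, fun h => ⟨Nat.mod_lt _ (by norm_num), h⟩⟩

theorem card_split (R : Finset ℕ) (X : ℕ) :
    ((Icc 1 X).filter fun n => Fund n ∧ n % 15 ∈ R).card =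
      ((Icc 1 X).filter fun n => Squarefree n ∧ n % 60 ∈ K1 R).card +
      ((Icc 1 (X / 4)).filter fun n => Squarefree n ∧ n % 60 ∈ K2 R).card := by
  have h1 : ((Icc 1 X).filter fun n => Fund n ∧ n % 15 ∈ R) =
      ((Icc 1 X).filter fun n => Squarefree n ∧ n % 60 ∈ K1 R) ∪
      ((Icc 1 (X / 4)).filter fun n => Squarefree n ∧ n % 60 ∈ K2 R).image (fun n => 4 * n) := by
    ext n
    rw [mem_union, mem_filter, mem_filter, mem_image, mem_Icc, mem_K1]
    constructor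
    · rintro ⟨hX, h2 | ⟨N, rfl, h2, h3⟩, h4⟩
      · exact Or.inl ⟨hX, h2.1, h2.2, h4⟩
      · right
        refine ⟨N, ?_, rfl⟩
        rw [mem_filter, mem_Icc, mem_K2]
        exact ⟨⟨by omega, by omega⟩, h2, h3, h4⟩
    · rintro (⟨hX, h2, h3, h4⟩ | ⟨N, h2, rfl⟩)
      · exact ⟨hX, Or.inl ⟨h2, h3⟩, h4⟩
      · rw [mem_filter, mem_Icc, mem_K2] at h2
        obtain ⟨hX, h2, h3, h4⟩ := h2
        exact ⟨by omega, Or.inr ⟨N, rfl, h2, h3⟩, h4⟩
  rw [h1, card_union_of_disjoint, card_image_of_injective _ (fun a b h => by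
    have h' : 4 * a = 4 * b := h
    omega)]
  rw [disjoint_left]
  intro n h2 h3
  rw [mem_filter, mem_K1] at h2
  rw [mem_image] at h3
  obtain ⟨N, -, rfl⟩ := h3
  omega

/-- the density of the discriminants in residue classes modulo `15` -/
theorem dens (R : Finset ℕ) : Tendsto (fun X : ℕ =>
    (((Icc 1 X).filter fun n => Fund n ∧ n % 15 ∈ R).card : ℝ) / X) atTop
    (𝓝 ((((∑ a ∈ K1 R, w60 a : ℕ) : ℝ) / 60 + ((∑ a ∈ K2 R, w60 a : ℕ) : ℝ) / 240) *
      (5 / (32 * Real.pi ^ 2)))) := by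
  have hs : ∀ K : Finset ℕ, (∀ a ∈ K, a < 60) →
      ∑ a ∈ K, wt 60 a = ((∑ a ∈ K, w60 a : ℕ) : ℝ) / 60 := by
    intro K hK
    rw [sum_congr rfl fun a ha => wt60 (hK a ha), Nat.cast_sum, sum_div]
  have hK1 : ∀ a ∈ K1 R, a < 60 := fun a ha => mem_range.1 (mem_filter.1 ha).1
  have hK2 : ∀ a ∈ K2 R, a < 60 := fun a ha => mem_range.1 (mem_filter.1 ha).1
  have h1 := lim_set (q := 60) (by norm_num) hK1
  have h2 := lim_set (q := 60) (by norm_num) hK2
  rw [hs _ hK1, dl_eq] at h1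
  rw [hs _ hK2, dl_eq] at h2
  have hdiv : Tendsto (fun X : ℕ => X / 4) atTop atTop := by
    rw [tendsto_atTop]
    intro b
    filter_upwards [eventually_ge_atTop (4 * b)] with X hX
    omega
  have h3 := (h2.comp hdiv).mul (floor_lim (g := 4) (by norm_num))
  have h4 := h1.add h3
  have e : ((∑ a ∈ K1 R, w60 a : ℕ) : ℝ) / 60 * (5 / (32 * Real.pi ^ 2)) +
      ((∑ a ∈ K2 R, w60 a : ℕ) : ℝ) / 60 * (5 / (32 * Real.pi ^ 2)) * (1 / ((4 : ℕ) : ℝ)) =
      (((∑ a ∈ K1 R, w60 a : ℕ) : ℝ) / 60 + ((∑ a ∈ K2 R, w60 a : ℕ) : ℝ) / 240) *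
      (5 / (32 * Real.pi ^ 2)) := by
    push_cast
    ring
  rw [e] at h4
  refine h4.congr' ?_
  filter_upwards [eventually_ge_atTop 4] with X hX
  rw [card_split, Nat.cast_add, add_div]
  congr 1
  have h5 : ((X / 4 : ℕ) : ℝ) ≠ 0 := by
    have : 0 < X / 4 := by omega
    exact_mod_cast this.ne'
  show _ / ((X / 4 : ℕ) : ℝ) * (((X / 4 : ℕ) : ℝ) / X) = _
  rw [div_mul_div_cancel₀ h5]

theorem sums : ∑ a ∈ K1 {0, 2, 3, 5, 8, 12}, w60 a = 280 ∧
    ∑ a ∈ K2 {0, 2, 3, 5, 8, 12}, w60 a = 560 ∧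
    ∑ a ∈ K1 (range 15), w60 a = 768 ∧ ∑ a ∈ K2 (range 15), w60 a = 1536 := by
  decide +kernel

/-- **the proportion of the class** -/
theorem prop_class : Tendsto (fun X : ℕ =>
    (((Icc 1 X).filter fun n => Fund n ∧ n % 3 ≠ 1 ∧ n % 5 ≠ 1 ∧ n % 5 ≠ 4).card : ℝ) /
      (((Icc 1 X).filter Fund).card : ℝ)) atTop (𝓝 (35 / 96)) := by
  obtain ⟨s1, s2, s3, s4⟩ := sums
  have h1 := dens {0, 2, 3, 5, 8, 12}
  have h2 := dens (range 15)
  rw [s1, s2] at h1
  rw [s3, s4] at h2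
  have hpi : Real.pi ≠ 0 := Real.pi_ne_zero
  have hne : (((768 : ℕ) : ℝ) / 60 + ((1536 : ℕ) : ℝ) / 240) * (5 / (32 * Real.pi ^ 2)) ≠ 0 := by
    positivity
  have h3 := h1.div h2 hne
  have e : (((280 : ℕ) : ℝ) / 60 + ((560 : ℕ) : ℝ) / 240) * (5 / (32 * Real.pi ^ 2)) /
      ((((768 : ℕ) : ℝ) / 60 + ((1536 : ℕ) : ℝ) / 240) * (5 / (32 * Real.pi ^ 2))) = 35 / 96 := by
    push_cast
    field_simp
    norm_num
  rw [e] at h3
  refine h3.congr' ?_
  filter_upwards [eventually_gt_atTop 0] with X hX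
  have hX' : (X : ℝ) ≠ 0 := by exact_mod_cast hX.ne'
  show _ / (X : ℝ) / (_ / (X : ℝ)) = _
  rw [div_div_div_cancel_right₀ hX']
  congr 2
  · refine congrArg card (filter_congr fun n _ => and_congr Iff.rfl ?_)
    simp only [mem_insert, mem_singleton]
    omega
  · refine congrArg card (filter_congr fun n _ => ?_)
    rw [mem_range]
    exact and_iff_left (Nat.mod_lt _ (by norm_num))

/-- the number of the discriminants tends to infinity -/
theorem fund_atTop : Tendsto (fun X : ℕ => (((Icc 1 X).filter Fund).card : ℝ)) atTop atTop := by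
  obtain ⟨s1, s2, s3, s4⟩ := sums
  have h2 := dens (range 15)
  rw [s3, s4] at h2
  have hpos : 0 < (((768 : ℕ) : ℝ) / 60 + ((1536 : ℕ) : ℝ) / 240) * (5 / (32 * Real.pi ^ 2)) := by
    have := Real.pi_pos
    positivity
  have h3 := h2.pos_mul_atTop hpos (tendsto_natCast_atTop_atTop (R := ℝ))
  refine h3.congr' ?_
  filter_upwards [eventually_gt_atTop 0] with X hX
  have hX' : (X : ℝ) ≠ 0 := by exact_mod_cast hX.ne'
  rw [div_mul_cancel₀ _ hX']
  congr 2
  refine filter_congr fun n _ => ?_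
  rw [mem_range]
  exact and_iff_left (Nat.mod_lt _ (by norm_num))

end Pool.Agent.H51.N15
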