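import Pool.Agent.H3.X15.Loc

/-!
# The local conditions for the negative twists of `X_0(15)` with `5` inert
-/

set_option autoImplicit false

namespace Pool.Agent.H51.N15

open Pool.Agent.N875.X15
open Pool.Agent.H3.X15

/-- the place at infinity -/
theorem loc_real_neg {m e1 e2 : ℤ} (hm : m < 0) (h1 : e1 ≠ 0) (h : LocU ℝ m e1 e2) : 0 < e1 := by
  obtain ⟨u, hu, hv, hw, ⟨r, hr⟩, ⟨s, hs⟩, -⟩ := h
  have hm' : (m : ℝ) < 0 := by exact_mod_cast hm
  have h1' : (e1 : ℝ) ≠ 0 := by exact_mod_cast h1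
  have k1 : 0 < u * (u + 9 * m) * (u - 16 * m) := by
    refine lt_of_le_of_ne ?_ (mul_ne_zero (mul_ne_zero hu hv) hw).symm
    rw [hr]; exact mul_self_nonneg r
  have k2 : 0 < (u - 16 * m) * e1 := by
    refine lt_of_le_of_ne ?_ (mul_ne_zero hw h1').symm
    rw [hs]; exact mul_self_nonneg s
  have c1 : 0 < u - 16 * m := by
    by_contra hcon
    push Not at hcon
    have hu0 : u < 0 := by linarith
    have hv0 : u + 9 * m < 0 := by linarith
    have : 0 ≤ u * (u + 9 * m) := (mul_pos_of_neg_of_neg hu0 hv0).le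
    nlinarith
  have c2 : (0 : ℝ) < e1 := by
    by_contra hcon
    push Not at hcon
    nlinarith
  exact_mod_cast c2

/-- the prime `5`, inert case -/
theorem loc_five_inert {m e1 e2 : ℤ} (hm : m % 5 = 2 ∨ m % 5 = 3) (q1 : Squarefree e1)
    (q2 : Squarefree e2) (h : LocU ℚ_[5] m e1 e2) : ¬ (5 : ℤ) ∣ e1 ∧ ¬ (5 : ℤ) ∣ e2 := by
  obtain ⟨u, hu, hv, hw, hs, s1, s2⟩ := h
  have hm5 : ¬ ((5 : ℕ) : ℤ) ∣ m := by push_cast; omega
  have m16 : ¬ ((5 : ℕ) : ℤ) ∣ 16 * m := by push_cast; omega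
  have m9 : ¬ ((5 : ℕ) : ℤ) ∣ -9 * m := by push_cast; omega
  have hm0 : m ≠ 0 := by rintro rfl; simp at hm
  have hmK : (m : ℚ_[5]) ≠ 0 := by exact_mod_cast hm0
  have d1 : u - 16 * (m : ℚ_[5]) - (u + 9 * (m : ℚ_[5])) = -25 * (m : ℚ_[5]) := by ring
  have d2 : u - (u + 9 * (m : ℚ_[5])) = ((-9 * m : ℤ) : ℚ_[5]) := by push_cast; ring
  have d3 : u - (u - 16 * (m : ℚ_[5])) = ((16 * m : ℤ) : ℚ_[5]) := by
    push_cast; ring
  have nz : ∀ n : ℤ, ¬ ((5 : ℕ) : ℤ) ∣ n → (n : ℚ_[5]) ≠ 0 := by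
    intro n hn h0
    have : n = 0 := by exact_mod_cast h0
    exact hn (this ▸ dvd_zero _)
  have v25 : (-25 * (m : ℚ_[5])).valuation = 2 := by
    rw [Padic.valuation_mul (by norm_num) hmK, val_int m hm5]
    have e9 : (-25 : ℚ_[5]) = ((-1 : ℤ) : ℚ_[5]) * ((5 : ℕ) : ℚ_[5]) ^ 2 := by norm_num
    rw [e9, Padic.valuation_mul (by norm_num) (by norm_num), Padic.valuation_pow,
      Padic.valuation_p, val_int (-1) (by norm_num)]
    norm_num
  obtain ⟨v1, v2, v3⟩ := loc_unr (p := 5) (by norm_num) hv hw hu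
    (by
      have e : (u + 9 * (m : ℚ_[5])) * (u - 16 * m) * u = u * (u + 9 * m) * (u - 16 * m) := by ring
      rwa [e])
    (by rw [d1]; exact mul_ne_zero (by norm_num) hmK)
    (by rw [d2]; exact nz _ m9) (by rw [d3]; exact nz _ m16) (l := 2) (k := 0)
    (by rw [d1]; exact v25) (by rw [d2]; exact val_int _ m9)
    (by rw [d3]; exact val_int _ m16) (by norm_num) (by decide) (by decide) (fun _ hsq => by
      rw [d2] at hsq
      have h5 := sq_mod m9 hsq
      have h6 : (((-9 * m : ℤ)) : ZMod 5) = ((m : ℤ) : ZMod 5) := by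
        rw [ZMod.intCast_eq_intCast_iff]
        show (-9 * m) % ((5 : ℕ) : ℤ) = m % ((5 : ℕ) : ℤ)
        push_cast
        omega
      rw [h6] at h5
      rcases hm with h | h
      · have h7 : ((m : ℤ) : ZMod 5) = 2 := by
          have : ((m : ℤ) : ZMod 5) = ((2 : ℤ) : ZMod 5) := by
            rw [ZMod.intCast_eq_intCast_iff]
            show m % ((5 : ℕ) : ℤ) = 2 % ((5 : ℕ) : ℤ)
            push_cast
            omega
          rw [this]
          rfl
        rw [h7] at h5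
        revert h5
        decide
      · have h7 : ((m : ℤ) : ZMod 5) = 3 := by
          have : ((m : ℤ) : ZMod 5) = ((3 : ℤ) : ZMod 5) := by
            rw [ZMod.intCast_eq_intCast_iff]
            show m % ((5 : ℕ) : ℤ) = 3 % ((5 : ℕ) : ℤ)
            push_cast
            omega
          rw [this]
          rfl
        rw [h7] at h5
        revert h5
        decide)
  exact ⟨ndvd_of_even (p := 5) q1 (even_of_sq hw q1.ne_zero v2 s1),
    ndvd_of_even (p := 5) q2 (even_of_sq hu q2.ne_zero v3 s2)⟩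

/-- a square unit -/
theorem jac_of {p : ℕ} [hp : Fact p.Prime] {e : ℤ} (h : ¬ (p : ℤ) ∣ e)
    (hs : IsSquare (e : ℚ_[p])) : jacobiSym e p = 1 := by
  rw [← jacobiSym.legendreSym.to_jacobiSym, legendreSym.eq_one_iff]
  · exact sq_mod h hs
  · intro h0
    rw [ZMod.intCast_zmod_eq_zero_iff_dvd] at h0
    exact h h0

/-- a number of valuation one is not a square -/
theorem not_sq_of_val {p : ℕ} [hp : Fact p.Prime] {x : ℚ_[p]} (hx : x ≠ 0)
    (h : x.valuation = 1) : ¬ IsSquare x := by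
  intro hs
  have := even_val hx hs
  rw [h] at this
  exact absurd this (by decide)

end Pool.Agent.H51.N15
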