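import Pool.Agent.H51.N15.Val
import Pool.Graph.R_pool_sql_team_seeded_63374d34.N969.P15.DIAGE
import Pool.Graph.R_pool_sql_team_seeded_63374d34.N973.P15.BILE
import Pool.Graph.R_pool_sql_team_seeded_63374d34.N402.P15.C1BE
import Pool.Graph.R_pool_sql_team_seeded_63374d34.N295.P15.C2E
import Pool.Graph.R_pool_sql_team_seeded_63374d34.N575.P15.HEE
import Pool.Graph.R_pool_sql_team_seeded_63374d34.N575.P15.PCE
import Pool.Graph.R_pool_sql_team_seeded_63374d34.N218.P15.Five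
import Pool.Graph.R_pool_sql_team_seeded_63374d34.N975.LfinE

/-!
# The central values of the twists of `X_0(15)` by the even discriminants `-n`
-/

set_option autoImplicit false

namespace Pool.Agent.H51.N15

open Finset
open Pool.Agent.N969.P15 (Cls0e Qe S_DIAGE un cc chE Ev Fp)
open Pool.Agent.N973.P15 (Cl3e Cl5e Cl15e FA S_DIAG3E S_DIAG5E S_DIAG15E)

theorem s_CP3E : Pool.Agent.N969.P15.S_CP3E :=
  Pool.Agent.N973.P15.t_CP3E Pool.Agent.N575.P15.PCE.t_PCE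

theorem s_DIAGE : S_DIAGE :=
  Pool.Agent.N969.P15.t_DIAGE Pool.Agent.N973.P15.C.t_C1AE Pool.Agent.N402.P15.t_C1BE
    Pool.Agent.N295.P15.E.t_C2E
    (Pool.Agent.N973.P15.t_BIL1E Pool.Agent.N973.P15.t_REL22 s_CP3E)
    (Pool.Agent.N973.P15.t_BIL2E Pool.Agent.N973.P15.t_REL22 s_CP3E)
    Pool.Agent.N575.P15.t_HEE

theorem s_DIAG3E : S_DIAG3E :=
  Pool.Agent.N973.P15.t_DIAG3E Pool.Agent.N402.P15.t_C1BE Pool.Agent.N295.TP.t_C23E
    Pool.Agent.N575.P15.PCE.t_PCE Pool.Agent.N871.P15.s_REL33 Pool.Agent.N575.P15.T3.t_HE3E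

theorem s_DIAG15E : S_DIAG15E :=
  Pool.Agent.N974.P15.t_DIAG15E Pool.Agent.N402.P15.t_C1BE Pool.Agent.N295.TP.t_C25E
    Pool.Agent.N575.P15.PCE.t_PC5E Pool.Agent.N871.P15.s_REL33 Pool.Agent.N575.P15.T3.t_HE3E

theorem s_DIAG5E : S_DIAG5E :=
  Pool.Agent.N974.P15.t_DIAG5E Pool.Agent.N402.P15.t_C1BE Pool.Agent.N295.TP.t_C25E
    Pool.Agent.N575.P15.PCE.t_PC5E
    (Pool.Agent.N973.P15.t_CP35E Pool.Agent.N575.P15.PCE.t_PC5E) Pool.Agent.N973.P15.t_REL5
    Pool.Agent.N575.P15.t_HEE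

/-- the class of the even discriminants: `3` is not inert and `5` does not split -/
structure ClE (n : ℕ) : Prop where
  ev : Ev n
  three : n % 3 ≠ 1
  five : n % 5 ≠ 1 ∧ n % 5 ≠ 4

/-- the Gross sum is not zero -/
theorem cc_neE {n : ℕ} (hn : ClE n) (hQ : Qe n) : cc n ≠ 0 := by
  have key : ∀ {k : ℕ} {y : ℤ}, cc n = 2 ^ k * y → Odd y → cc n ≠ 0 := by
    intro k y h1 h2
    rw [h1]
    refine mul_ne_zero (pow_ne_zero _ two_ne_zero) ?_
    rintro rfl
    exact absurd h2 (by decide)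
  obtain ⟨hE, hh3, hh5⟩ := hn
  by_cases c5 : 5 ∣ n
  · have : Cl15e n ∨ Cl5e n := by
      by_cases c3 : 3 ∣ n
      · exact Or.inl ⟨hE, c3, c5⟩
      · exact Or.inr ⟨hE, by omega, c5⟩
    obtain ⟨y, h1, h2⟩ := Pool.Agent.N218.P15.s_PARA5E n this
    exact key h1 (h2.2 hQ)
  · by_cases c3 : 3 ∣ n
    · obtain ⟨y, h1, h2⟩ := Pool.Agent.N218.P15.s_PARA3E n ⟨hE, c3, by omega⟩
      exact key h1 (h2.2 hQ)
    · obtain ⟨y, h1, h2⟩ := Pool.Agent.N218.P15.s_PARE n ⟨hE, by omega, by omega⟩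
      exact key h1 (h2.2 hQ)

/-- the character sum of the odd symbol does not vanish -/
theorem sum_neE {s : ℚ → ℤ} {a : ℕ → ℤ} (H : Pool.Agent.N974.MF.Symb15 s a) {n : ℕ} (hn : ClE n)
    (hQ : Qe n) : ∑ u ∈ un n, chE n u * s ((u : ℚ) / n) ≠ 0 := by
  have hcc := cc_neE hn hQ
  have hcc2 : cc n ^ 2 ≠ 0 := pow_ne_zero _ hcc
  have h13 : s (1 / 3) ≠ 0 := by
    have h5 : Odd (s (1 / 3)) := by
      refine H.odd3 (1 / 3) ?_ ?_ <;> norm_num
    intro h6
    rw [h6] at h5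
    exact absurd h5 (by decide)
  obtain ⟨hE, hh3, hh5⟩ := id hn
  have hn0 : n ≠ 0 := by
    obtain ⟨m, rfl, hs, -⟩ := hE
    have := hs.ne_zero
    omega
  by_cases c3 : 3 ∣ n
  · -- the symbol in terms of the counting function
    have e1 : ∑ u ∈ un n, chE n u * s ((u : ℚ) / n) =
        -s (1 / 3) * ∑ u ∈ un n, chE n u * FA u n := by
      rw [Finset.mul_sum]
      refine Finset.sum_congr rfl fun u hu => ?_
      have hu2 : Nat.Coprime u n := (Finset.mem_filter.1 hu).2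
      have h1 := Pool.Agent.N973.P15.SA.t_SYMA s a H (u : ℤ) (n : ℤ) (by exact_mod_cast hn0)
        (by exact_mod_cast c3) (Nat.isCoprime_iff_coprime.2 hu2)
      have h2 : s (((u : ℕ) : ℚ) / ((n : ℕ) : ℚ)) = -s (1 / 3) * FA u n := by
        rw [← h1]
        push_cast
        rfl
      rw [h2]
      ring
    rw [e1]
    refine mul_ne_zero (neg_ne_zero.2 h13) fun h0 => hcc2 ?_
    by_cases c5 : 5 ∣ n
    · have h7 := s_DIAG15E n ⟨hE, c3, c5⟩
      rw [h0] at h7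
      linarith
    · have h7 := s_DIAG3E n ⟨hE, c3, by omega⟩
      rw [h0] at h7
      linarith
  · by_cases c5 : 5 ∣ n
    · have e1 := ((Pool.Agent.N975.CHB.t_SUMB Pool.Agent.N973.P15.SB.t_SYMB) s a H).2 n
        ⟨hE, by omega, c5⟩
      rw [e1]
      refine mul_ne_zero (neg_ne_zero.2 h13) fun h0 => hcc2 ?_
      have h7 := s_DIAG5E n ⟨hE, by omega, c5⟩
      rw [h0] at h7
      linarith
    · have h14 : s (1 / 4) ≠ 0 := by
        rw [H.s14]
        intro h6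
        omega
      have h15 : Nat.Coprime 15 n := by
        rw [show (15 : ℕ) = 3 * 5 by norm_num]
        refine Nat.Coprime.mul_left ?_ ?_
        · rw [Nat.Prime.coprime_iff_not_dvd Nat.prime_three]
          exact c3
        · rw [Nat.Prime.coprime_iff_not_dvd (by norm_num)]
          exact c5
      have e1 : ∑ u ∈ un n, chE n u * s ((u : ℚ) / n) =
          s (1 / 4) * ∑ u ∈ un n, chE n u * Fp u n := by
        rw [Finset.mul_sum]
        refine Finset.sum_congr rfl fun u hu => ?_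
        have hu2 : Nat.Coprime u n := (Finset.mem_filter.1 hu).2
        have h1 := Pool.Agent.N975.Sym.t_SYM (Pool.Agent.N969.P15.symbM_of H) (x := u) (M := n)
          (by exact_mod_cast hn0) (Pool.Agent.N975.Sym.cop15 h15 hu2)
        have h2 : s (((u : ℕ) : ℚ) / ((n : ℕ) : ℚ)) = s (1 / 4) * Fp u n := by
          rw [← h1]
          push_cast
          rfl
        rw [h2]
        ring
      rw [e1]
      refine mul_ne_zero h14 fun h0 => hcc2 ?_
      have h7 := s_DIAGE n ⟨hE, by omega, by omega⟩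
      rw [h0] at h7
      linarith

/-- **The central value does not vanish.** -/
theorem valueE {n : ℕ} (hn : ClE n) (hQ : Qe n) :
    ∃ f : ℂ → ℂ, Differentiable ℂ f ∧
      (∀ s : ℂ, (3 : ℝ) / 2 < s.re →
        HasProd (fun p : {p : ℕ // p.Prime ∧
            ¬ ((p : ℤ) ∣ 2 * (4 * (-12987 * (-((n / 4 : ℕ) : ℤ)) ^ 2) ^ 3 +
              27 * (-263466 * (-((n / 4 : ℕ) : ℤ)) ^ 3) ^ 2))} =>
          Pool.Agent.Y687.fac (-12987 * (-((n / 4 : ℕ) : ℤ)) ^ 2)
            (-263466 * (-((n / 4 : ℕ) : ℤ)) ^ 3) s p) (f s)) ∧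
      f 1 ≠ 0 := by
  obtain ⟨sp, sm, Op, Om, hOp, hOm, hII, -, -, hS⟩ :=
    Pool.Agent.N974.MF.exists_symb Pool.Agent.N975.Lat15.s_lat
  exact Pool.Agent.N975.LfinE.exists_f_neE Pool.Agent.N975.Lat15.s_lat hn.ev hOp hOm hII
    (Or.inr (sum_neE hS hn hQ))

end Pool.Agent.H51.N15
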