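import Pool.Agent.H51.N15.RankE
import Pool.Agent.H51.N15.ValE
import Pool.Agent.H3.X15.LFun
import Pool.Graph.R_pool_sql_team_seeded_63374d34.N916.TE.Tg
import Pool.Graph.R_pool_sql_team_seeded_63374d34.N916.GB.Num

/-!
# The negative quadratic twists of `X_0(15)`
-/

set_option autoImplicit false

namespace Pool.Agent.H51.N15

open Finset Filter
open scoped Classical
open Pool.Agent.N969.P15 (Qc Qe Ev)
open Pool.Agent.N916.TE (FD Go)

/-- `-n` is a fundamental discriminant -/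
def Fund (n : ℕ) : Prop :=
  (Squarefree n ∧ n % 4 = 3) ∨ (∃ N : ℕ, n = 4 * N ∧ Squarefree N ∧ (N % 4 = 1 ∨ N % 4 = 2))

/-- the squarefree number with `ℚ(√-n) = ℚ(√-N)` -/
def core (n : ℕ) : ℕ := if n % 4 = 0 then n / 4 else n

/-- the criterion -/
def Good (n : ℕ) : Prop := ∀ d : ℕ, d ∣ n → Squarefree d →
  (∀ p : ℕ, p.Prime → p ≠ 2 → p ∣ n →
    jacobiSym (if p ∣ d then ((d / p * (core n / p) : ℕ) : ℤ) else d) p = 1) →
  d = 1 ∨ d = core n

theorem jac_cof {n b c p : ℕ} (hn : Squarefree n) (hbc : b * c = n) (hp : p.Prime) (hpb : p ∣ b) :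
    jacobiSym ((b / p * (n / p) : ℕ) : ℤ) p = jacobiSym c p := by
  have : Fact p.Prime := ⟨hp⟩
  obtain ⟨b', rfl⟩ := hpb
  have hpb' : ¬ p ∣ b' := by
    rintro ⟨k, rfl⟩
    have h1 : p * p ∣ n := ⟨k * c, by rw [← hbc]; ring⟩
    exact hp.one_lt.ne' (Nat.isUnit_iff.1 (hn p h1))
  have h1 : n / p = b' * c := by
    rw [← hbc, mul_assoc, Nat.mul_div_cancel_left _ hp.pos]
  rw [Nat.mul_div_cancel_left _ hp.pos, h1]
  have h2 : ((b' * (b' * c) : ℕ) : ℤ) = (b' : ℤ) * b' * c := by push_cast; ring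
  rw [h2, jacobiSym.mul_left, jacobiSym.mul_left]
  have h3 : jacobiSym (b' : ℤ) p * jacobiSym (b' : ℤ) p = 1 := by
    have h4 : Int.gcd (b' : ℤ) p = 1 := by
      rw [Int.gcd_natCast_natCast]
      exact ((Nat.Prime.coprime_iff_not_dvd hp).2 hpb').symm
    have := jacobiSym.sq_one h4
    rwa [sq] at this
  rw [h3, one_mul]

theorem good_odd {n : ℕ} (hn : Squarefree n) (h4 : n % 4 = 3) : Good n ↔ Qc n := by
  have hn0 := hn.ne_zero
  have hcore : core n = n := by
    unfold core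
    rw [if_neg (by omega)]
  have hp2 : ∀ p : ℕ, p ∣ n → p ≠ 2 := by
    rintro p h rfl
    omega
  constructor
  · intro h b c hbc h1 h2
    have hb : b ∣ n := ⟨c, hbc.symm⟩
    rcases h b hb (hn.squarefree_of_dvd hb) (by
      intro p hp _ hpn
      rw [hcore]
      by_cases hpb : p ∣ b
      · rw [if_pos hpb, jac_cof hn hbc hp hpb]
        exact h2 p (Nat.mem_primeFactors.2 ⟨hp, hpb, ne_zero_of_dvd_ne_zero hn0 hb⟩)
      · rw [if_neg hpb]
        refine h1 p (Nat.mem_primeFactors.2 ⟨hp, ?_, ?_⟩)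
        · rw [← hbc] at hpn
          exact (hp.dvd_mul.1 hpn).resolve_left hpb
        · rintro rfl
          exact hn0 (by rw [← hbc, mul_zero])) with h3 | h3
    · exact Or.inl h3
    · right
      rw [hcore] at h3
      have hb0 : 0 < b := Nat.pos_of_ne_zero (ne_zero_of_dvd_ne_zero hn0 hb)
      refine Nat.eq_of_mul_eq_mul_left hb0 ?_
      rw [hbc, mul_one, h3]
  · intro h d hd hsd h1
    rw [hcore]
    obtain ⟨c, hc⟩ := id hd
    have hcop : Nat.Coprime d c := by
      rw [hc] at hn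
      exact Nat.coprime_of_squarefree_mul hn
    rcases h d c hc.symm (by
      intro p hp
      have hpp := Nat.prime_of_mem_primeFactors hp
      have hpc := Nat.dvd_of_mem_primeFactors hp
      have hpn : p ∣ n := by rw [hc]; exact hpc.mul_left d
      have h2 := h1 p hpp (hp2 p hpn) hpn
      rwa [if_neg (fun h3 => hpp.one_lt.ne' (Nat.eq_one_of_dvd_coprimes hcop h3 hpc))] at h2) (by
      intro p hp
      have hpp := Nat.prime_of_mem_primeFactors hp
      have hpd := Nat.dvd_of_mem_primeFactors hp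
      have hpn : p ∣ n := hpd.trans hd
      have h2 := h1 p hpp (hp2 p hpn) hpn
      rwa [if_pos hpd, hcore, jac_cof hn hc.symm hpp hpd] at h2) with h3 | h3
    · exact Or.inl h3
    · right
      rw [hc, h3, mul_one]

theorem good_even {n : ℕ} (hn : Ev n) : Good n ↔ Qe n := by
  obtain ⟨N, rfl, hN, h4⟩ := hn
  have hN0 := hN.ne_zero
  have hcore : core (4 * N) = 4 * N / 4 := by
    unfold core
    rw [if_pos (by omega)]
  constructor
  · intro h d hd h1 h2
    have hdn : d ∣ 4 * N := by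
      rw [← Nat.prod_primeFactors_of_squarefree hd]
      refine Finset.prod_primes_dvd _ (fun p hp => (Nat.prime_of_mem_primeFactors hp).prime)
        fun p hp => h1 p hp
    have h3 := h d hdn hd (by
      intro p hp hp2 hpn
      have h4 := h2 p (Nat.mem_primeFactors.2 ⟨hp, hpn, by omega⟩) hp2
      rw [hcore]
      split_ifs at h4 ⊢ <;> exact h4)
    rwa [hcore] at h3
  · intro h d hd hsd h1
    rw [hcore]
    refine h d hsd (fun p hp => (Nat.dvd_of_mem_primeFactors hp).trans hd) ?_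
    intro p hp hp2
    have h4 := h1 p (Nat.prime_of_mem_primeFactors hp) hp2 (Nat.dvd_of_mem_primeFactors hp)
    rw [hcore] at h4
    split_ifs at h4 ⊢ <;> exact h4

theorem good_go {n : ℕ} (hn : Fund n) : Good n ↔ Go n := by
  rcases hn with ⟨h1, h2⟩ | h1
  · rw [good_odd h1 h2]
    exact ⟨fun h => ⟨fun _ => h, fun h3 => by omega⟩, fun h => h.1 (by omega)⟩
  · rw [good_even h1]
    obtain ⟨N, rfl, -, -⟩ := h1
    exact ⟨fun h => ⟨fun h3 => by omega, fun _ => h⟩, fun h => h.2 (by omega)⟩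

/-- **Nonvanishing and finiteness.** -/
theorem main {n : ℕ} (hn : Fund n) (h3 : n % 3 ≠ 1) (h5 : n % 5 ≠ 1 ∧ n % 5 ≠ 4) (hne : n ≠ 3)
    (hG : Good n) :
    (∃ F : ℂ → ℂ, Differentiable ℂ F ∧
      (∀ s : ℂ, (3 : ℝ) / 2 < s.re → HasProd (Pool.Agent.H3.X15.fac
        (-12987 * (-(core n : ℤ)) ^ 2) (-263466 * (-(core n : ℤ)) ^ 3) s) (F s)) ∧ F 1 ≠ 0) ∧
    Module.finrank ℤ (EZ (-(core n : ℤ))).toAffine.Point = 0 ∧
      Finite (EZ (-(core n : ℤ))).toAffine.Point ∧
      ∀ x : Pool.Agent.W262.SH.Sha (EZ (-(core n : ℤ))), x + x = 0 → x = 0 := by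
  rcases hn with ⟨h1, h2⟩ | h1
  · have hQ := (good_odd h1 h2).1 hG
    have hcore : core n = n := by
      unfold core
      rw [if_neg (by omega)]
    rw [hcore]
    refine ⟨?_, rank_sha h1 h2 h3 h5 hQ⟩
    obtain ⟨f, hf1, hf2, hf3⟩ := value (n := n) ⟨h1, h2, h3, h5⟩ hne hQ
    exact ⟨f, hf1, fun z hz => Pool.Agent.H3.X15.hasProd_fac (hf2 z hz), hf3⟩
  · have hQ := (good_even h1).1 hG
    have h1' := h1
    obtain ⟨N, rfl, hN, h4⟩ := h1'
    have hcore : core (4 * N) = N := by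
      unfold core
      rw [if_pos (by omega)]
      omega
    have hdiv : 4 * N / 4 = N := by omega
    rw [hcore]
    refine ⟨?_, rank_shaE hN h4 (by omega) (by omega) hQ⟩
    obtain ⟨f, hf1, hf2, hf3⟩ := valueE (n := 4 * N) ⟨h1, h3, h5⟩ hQ
    rw [hdiv] at hf2
    exact ⟨f, hf1, fun z hz => Pool.Agent.H3.X15.hasProd_fac (hf2 z hz), hf3⟩

end Pool.Agent.H51.N15
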