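import Pool.Agent.H51.N15.Bad
import Pool.Graph.R_pool_sql_team_seeded_63374d34.N916.GB.Tr

/-!
# The pairs of square classes for the twists of `X_0(15)` by `-n`
-/

set_option autoImplicit false

namespace Pool.Agent.H51.N15

open Finset
open Pool.Agent.N875.X15
open Pool.Agent.H3.X15
open Pool.Agent.N969.P15 (Qc)
open Pool.Agent.Y703.CQ (nr)

/-! ### quadratic reciprocity -/

/-- reciprocity for `D = 1` modulo `4` -/
theorem recip {D : ℤ} (hD : D % 4 = 1) {q : ℕ} (hq : q % 2 = 1) :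
    jacobiSym q D.natAbs = jacobiSym D q := by
  have hqo : Odd q := Nat.odd_iff.2 hq
  rcases le_or_gt 0 D with h | h
  · obtain ⟨d, rfl⟩ := Int.eq_ofNat_of_zero_le h
    rw [Int.natAbs_natCast]
    exact (jacobiSym.quadratic_reciprocity_one_mod_four (by omega) hqo).symm
  · obtain ⟨d, hd⟩ := Int.eq_ofNat_of_zero_le (show 0 ≤ -D by omega)
    have hD' : D = -(d : ℤ) := by omega
    subst hD'
    rw [Int.natAbs_neg, Int.natAbs_natCast]
    have hd4 : d % 4 = 3 := by omega
    have hneg : jacobiSym (-(d : ℤ)) q = ZMod.χ₄ q * jacobiSym d q := by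
      rw [← neg_one_mul, jacobiSym.mul_left, jacobiSym.at_neg_one hqo]
    rw [hneg]
    have h4 : q % 4 = 1 ∨ q % 4 = 3 := by omega
    rcases h4 with h4 | h4
    · rw [ZMod.χ₄_nat_one_mod_four h4, one_mul]
      exact jacobiSym.quadratic_reciprocity_one_mod_four h4 (Nat.odd_iff.2 (by omega))
    · rw [ZMod.χ₄_nat_three_mod_four h4]
      rw [jacobiSym.quadratic_reciprocity_three_mod_four h4 hd4]
      ring

/-- the symbol at a product -/
theorem jac_prod' {q : ℕ} (s : Finset ℕ) (hs : ∀ p ∈ s, p.Prime ∧ ¬ p ∣ q) :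
    jacobiSym q (∏ p ∈ s, p) = if ∑ p ∈ s, nr p q = 0 then 1 else -1 := by
  induction s using Finset.induction_on with
  | empty =>
    rw [prod_empty, sum_empty, if_pos rfl]
    exact jacobiSym.one_right _
  | insert a s ha ih =>
    obtain ⟨h1, h2⟩ := hs a (mem_insert_self a s)
    have : Fact a.Prime := ⟨h1⟩
    have : NeZero a := ⟨h1.ne_zero⟩
    have : NeZero (∏ p ∈ s, p) := ⟨prod_ne_zero_iff.2 fun p hp =>
      (hs p (mem_insert_of_mem hp)).1.ne_zero⟩
    rw [prod_insert ha, sum_insert ha, jacobiSym.mul_right,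
      ih fun q hq => hs q (mem_insert_of_mem hq)]
    have h0 : ((q : ℤ) : ZMod a) ≠ 0 := by
      intro h
      rw [Int.cast_natCast, ZMod.natCast_eq_zero_iff] at h
      exact h2 h
    have h3 : jacobiSym (q : ℤ) a = if nr a q = 0 then 1 else -1 := by
      rw [← jacobiSym.legendreSym.to_jacobiSym]
      unfold Pool.Agent.Y703.CQ.nr
      by_cases h : IsSquare (q : ZMod a)
      · rw [if_pos h, if_pos rfl]
        exact (legendreSym.eq_one_iff a h0).2 (by rwa [Int.cast_natCast])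
      · rw [if_neg h, if_neg one_ne_zero]
        exact (legendreSym.eq_neg_one_iff a).2 (by rwa [Int.cast_natCast])
    rw [h3]
    rcases Pool.Agent.N916.GB.z2 (nr a q) with h | h <;>
      rcases Pool.Agent.N916.GB.z2 (∑ p ∈ s, nr p q) with h' | h' <;> rw [h, h']
    · simp
    · simp
    · simp
    · rw [show (1 : ZMod 2) + 1 = 0 from by decide]
      norm_num

/-! ### the decompositions -/

/-- divisors of a squarefree number -/
theorem dvd_of_pf {e : ℤ} {n : ℕ} (he : Squarefree e) (hn : Squarefree n)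
    (h : ∀ q : ℕ, q.Prime → (q : ℤ) ∣ e → q ∣ n) : e.natAbs ∣ n := by
  have h1 : Squarefree e.natAbs := Int.squarefree_natAbs.2 he
  rw [← Nat.prod_primeFactors_of_squarefree h1, ← Nat.prod_primeFactors_of_squarefree hn]
  refine prod_dvd_prod_of_subset _ _ _ fun q hq => ?_
  have hq' := Nat.prime_of_mem_primeFactors hq
  rw [Nat.mem_primeFactors]
  refine ⟨hq', h q hq' ?_, hn.ne_zero⟩
  exact Int.natCast_dvd.2 (Nat.dvd_of_mem_primeFactors hq)

section
variable {n : ℕ}

/-- the decompositions of the second kind are trivial -/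
theorem second (hn : Squarefree n) (h4 : n % 4 = 3) (hQ : Qc n) {e : ℤ} (he : Squarefree e)
    (he4 : e % 4 = 1) (hd : e.natAbs ∣ n)
    (h : ∀ (p : ℕ) [Fact p.Prime], p ∣ n →
      IsSquare (e : ℚ_[p]) ∨ IsSquare ((e * -(n : ℤ) : ℤ) : ℚ_[p])) :
    e = 1 ∨ e = -(n : ℤ) := by
  classical
  have hn0 : n ≠ 0 := hn.ne_zero
  have he0 : e ≠ 0 := he.ne_zero
  -- the other factor
  obtain ⟨c, hc⟩ : e ∣ -(n : ℤ) := by
    rw [dvd_neg, ← Int.natAbs_dvd_natAbs, Int.natAbs_natCast]
    exact hd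
  have hcn : e.natAbs * c.natAbs = n := by
    rw [← Int.natAbs_mul, ← hc, Int.natAbs_neg, Int.natAbs_natCast]
  have hc4 : c % 4 = 1 := by
    have h1 : (e * c) % 4 = 1 := by rw [← hc]; omega
    rw [Int.mul_emod, he4, one_mul, Int.emod_emod_of_dvd _ (dvd_refl 4)] at h1
    exact h1
  have hcop : Nat.Coprime e.natAbs c.natAbs := by
    rw [← hcn] at hn
    exact Nat.coprime_of_squarefree_mul hn
  have hodd : ∀ p ∈ n.primeFactors, p.Prime ∧ p % 2 = 1 := by
    intro p hp
    have h1 := Nat.prime_of_mem_primeFactors hp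
    refine ⟨h1, ?_⟩
    rcases h1.eq_two_or_odd with h2 | h2
    · subst h2
      have := Nat.dvd_of_mem_primeFactors hp
      omega
    · exact h2
  have hG := (Pool.Agent.N916.GB.Gd_iff_Qc hn h4).2 hQ
  set x : ℕ → ZMod 2 := fun p => if p ∣ e.natAbs then 1 else 0 with hx
  have hV : Pool.Agent.N916.GB.Vt false n.primeFactors = n.primeFactors := by
    unfold Pool.Agent.N916.GB.Vt
    rw [if_neg (by decide)]
  have hS1 : n.primeFactors.filter (fun p => p ∣ e.natAbs) = e.natAbs.primeFactors := by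
    ext p
    rw [mem_filter, Nat.mem_primeFactors, Nat.mem_primeFactors]
    constructor
    · exact fun h1 => ⟨h1.1.1, h1.2, Int.natAbs_ne_zero.2 he0⟩
    · exact fun h1 => ⟨⟨h1.1, h1.2.1.trans hd, hn0⟩, h1.2.1⟩
  have hc0 : c ≠ 0 := by
    rintro rfl
    simp at hc4
  have hS2 : n.primeFactors.filter (fun p => ¬ p ∣ e.natAbs) = c.natAbs.primeFactors := by
    ext p
    rw [mem_filter, Nat.mem_primeFactors, Nat.mem_primeFactors]
    constructor
    · rintro ⟨⟨h1, h2, -⟩, h3⟩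
      refine ⟨h1, ?_, Int.natAbs_ne_zero.2 hc0⟩
      rw [← hcn] at h2
      exact (h1.dvd_mul.1 h2).resolve_left h3
    · rintro ⟨h1, h2, -⟩
      refine ⟨⟨h1, h2.trans ⟨e.natAbs, by rw [mul_comm, hcn]⟩, hn0⟩, fun h3 => ?_⟩
      exact h1.one_lt.ne' (Nat.eq_one_of_dvd_coprimes hcop h3 h2)
  have hsqe : Squarefree e.natAbs := Int.squarefree_natAbs.2 he
  have hsqc : Squarefree c.natAbs := by
    refine Squarefree.squarefree_of_dvd ?_ hn
    exact ⟨e.natAbs, by rw [mul_comm, hcn]⟩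
  have key : ∀ q ∈ n.primeFactors, ∑ p ∈ n.primeFactors, (x p + x q) *
      Pool.Agent.N916.GB.sy 0 0 q p = 0 := by
    intro q hq
    obtain ⟨hqp, hq2⟩ := hodd q hq
    have : Fact q.Prime := ⟨hqp⟩
    have hqn : q ∣ n := Nat.dvd_of_mem_primeFactors hq
    have hsy : ∀ p ∈ n.primeFactors, Pool.Agent.N916.GB.sy 0 0 q p = nr p q := by
      intro p hp
      unfold Pool.Agent.N916.GB.sy
      rw [if_neg]
      rintro rfl
      have := (hodd 2 hp).2
      omega
    have hnK : ((n : ℤ) : ℚ_[q]).valuation = 1 := val_dvd (p := q)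
      (Int.squarefree_natCast.2 hn) (Int.natCast_dvd_natCast.2 hqn)
    have hnK0 : ((n : ℤ) : ℚ_[q]) ≠ 0 := by exact_mod_cast hn0
    have heK0 : (e : ℚ_[q]) ≠ 0 := by exact_mod_cast he0
    by_cases hqe : q ∣ e.natAbs
    · -- `e` is not a square, so the cofactor is one
      have hqc : ¬ q ∣ c.natAbs := fun h3 =>
        hqp.one_lt.ne' (Nat.eq_one_of_dvd_coprimes hcop hqe h3)
      have hqc' : ¬ (q : ℤ) ∣ c := fun h3 => hqc (Int.natCast_dvd.1 h3)
      have h1 : ¬ IsSquare (e : ℚ_[q]) := not_sq_of_val heK0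
        (val_dvd he (Int.natCast_dvd.2 hqe))
      have h2 := (h q hqn).resolve_left h1
      have h3 : IsSquare ((c : ℤ) : ℚ_[q]) := by
        rw [hc] at h2
        refine sq_cancel (x := (e : ℚ_[q]) * e) (mul_ne_zero heK0 heK0) ⟨_, rfl⟩ ?_
        have e' : (e : ℚ_[q]) * e * c = ((e * (e * c) : ℤ) : ℚ_[q]) := by push_cast; ring
        rwa [e']
      have h4' := jac_of hqc' h3
      have h5 := recip hc4 hq2
      rw [h4'] at h5
      have hpr : ∏ p ∈ c.natAbs.primeFactors, p = c.natAbs :=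
        Nat.prod_primeFactors_of_squarefree hsqc
      rw [← hpr, jac_prod' _ (fun p hp => ⟨Nat.prime_of_mem_primeFactors hp, fun h6 => hqc (by
        rw [← (Nat.prime_dvd_prime_iff_eq (Nat.prime_of_mem_primeFactors hp) hqp).1 h6]
        exact Nat.dvd_of_mem_primeFactors hp)⟩)] at h5
      have h6 : ∑ p ∈ c.natAbs.primeFactors, nr p q = 0 := by
        by_contra h7
        rw [if_neg h7] at h5
        norm_num at h5
      rw [← hS2, sum_filter] at h6
      refine Eq.trans (sum_congr rfl fun p hp => ?_) h6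
      rw [hsy p hp]
      simp only [hx]
      rw [if_pos hqe]
      by_cases hpe : p ∣ e.natAbs
      · rw [if_pos hpe, if_neg (not_not.2 hpe), show (1 : ZMod 2) + 1 = 0 from by decide, zero_mul]
      · rw [if_neg hpe, if_pos hpe, zero_add, one_mul]
    · -- the number `e` is a square
      have hqe' : ¬ (q : ℤ) ∣ e := fun h3 => hqe (Int.natCast_dvd.1 h3)
      have h1 : ¬ IsSquare ((e * -(n : ℤ) : ℤ) : ℚ_[q]) := by
        refine not_sq_of_val ?_ ?_
        · exact_mod_cast mul_ne_zero he0 (neg_ne_zero.2 (by exact_mod_cast hn0))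
        · have e' : ((e * -(n : ℤ) : ℤ) : ℚ_[q]) = ((-e : ℤ) : ℚ_[q]) * ((n : ℤ) : ℚ_[q]) := by
            push_cast; ring
          rw [e', Padic.valuation_mul (by exact_mod_cast neg_ne_zero.2 he0) hnK0, hnK,
            val_int (p := q) (-e) (by rwa [dvd_neg])]
          norm_num
      have h2 := (h q hqn).resolve_right h1
      have h4' := jac_of hqe' h2
      have h5 := recip he4 hq2
      rw [h4'] at h5
      have hpr : ∏ p ∈ e.natAbs.primeFactors, p = e.natAbs :=
        Nat.prod_primeFactors_of_squarefree hsqe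
      rw [← hpr, jac_prod' _ (fun p hp => ⟨Nat.prime_of_mem_primeFactors hp, fun h6 => hqe (by
        rw [← (Nat.prime_dvd_prime_iff_eq (Nat.prime_of_mem_primeFactors hp) hqp).1 h6]
        exact Nat.dvd_of_mem_primeFactors hp)⟩)] at h5
      have h6 : ∑ p ∈ e.natAbs.primeFactors, nr p q = 0 := by
        by_contra h7
        rw [if_neg h7] at h5
        norm_num at h5
      rw [← hS1, sum_filter] at h6
      refine Eq.trans (sum_congr rfl fun p hp => ?_) h6
      rw [hsy p hp]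
      simp only [hx]
      rw [if_neg hqe]
      by_cases hpe : p ∣ e.natAbs
      · rw [if_pos hpe, if_pos hpe, add_zero, one_mul]
      · rw [if_neg hpe, if_neg hpe, add_zero, zero_mul]
  have hconst := hG x (by rw [hV]; exact key)
  rw [hV] at hconst
  by_cases hall : ∀ p ∈ n.primeFactors, p ∣ e.natAbs
  · right
    have h1 : n ∣ e.natAbs := by
      rw [← Nat.prod_primeFactors_of_squarefree hn, ← Nat.prod_primeFactors_of_squarefree hsqe]
      refine prod_dvd_prod_of_subset _ _ _ fun q hq => ?_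
      rw [Nat.mem_primeFactors]
      exact ⟨Nat.prime_of_mem_primeFactors hq, hall q hq, Int.natAbs_ne_zero.2 he0⟩
    have h2 : e.natAbs = n := Nat.dvd_antisymm hd h1
    omega
  · left
    push Not at hall
    obtain ⟨p0, hp0, hp0'⟩ := hall
    have h1 : ∀ p ∈ n.primeFactors, ¬ p ∣ e.natAbs := by
      intro p hp hpe
      have h2 := hconst p hp p0 hp0
      simp only [hx] at h2
      rw [if_pos hpe, if_neg hp0'] at h2
      exact one_ne_zero h2
    have h2 : e.natAbs.primeFactors = ∅ := by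
      rw [← hS1, filter_eq_empty_iff]
      exact fun p hp => h1 p hp
    have h3 : e.natAbs = 1 := by
      rw [← Nat.prod_primeFactors_of_squarefree hsqe, h2, prod_empty]
    omega

/-- the decompositions of the first kind are trivial -/
theorem first (hn : Squarefree n) (hQ : Qc n) {a : ℕ} (ha : a ∣ n)
    (h : ∀ (p : ℕ) [Fact p.Prime], p ∣ n →
      IsSquare ((a : ℤ) : ℚ_[p]) ∨ IsSquare (((a : ℤ) * n : ℤ) : ℚ_[p])) :
    a = 1 ∨ a = n := by
  obtain ⟨c, hc⟩ := ha
  have hn0 : n ≠ 0 := hn.ne_zero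
  have ha0 : a ≠ 0 := by
    rintro rfl
    rw [zero_mul] at hc
    exact hn0 hc
  have hcop : Nat.Coprime a c := by
    rw [hc] at hn
    exact Nat.coprime_of_squarefree_mul hn
  have hsqa : Squarefree a := Squarefree.squarefree_of_dvd ⟨c, hc⟩ hn
  have haK0 : ∀ (p : ℕ) [Fact p.Prime], ((a : ℤ) : ℚ_[p]) ≠ 0 := fun p _ => by exact_mod_cast ha0
  rcases hQ a c hc.symm (by
    intro p hp
    have hpp := Nat.prime_of_mem_primeFactors hp
    have : Fact p.Prime := ⟨hpp⟩
    have hpc := Nat.dvd_of_mem_primeFactors hp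
    have hpa : ¬ p ∣ a := fun h3 => hpp.one_lt.ne' (Nat.eq_one_of_dvd_coprimes hcop h3 hpc)
    have hpn : p ∣ n := by rw [hc]; exact hpc.mul_left a
    have h1 : ¬ IsSquare (((a : ℤ) * n : ℤ) : ℚ_[p]) := by
      refine not_sq_of_val ?_ ?_
      · exact_mod_cast mul_ne_zero ha0 hn0
      · have hnK0 : ((n : ℤ) : ℚ_[p]) ≠ 0 := by exact_mod_cast hn0
        rw [Int.cast_mul, Padic.valuation_mul (haK0 p) hnK0, val_int (p := p) (a : ℤ)
          (fun h3 => hpa (Int.natCast_dvd_natCast.1 h3)), val_dvd (p := p)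
          (Int.squarefree_natCast.2 hn) (Int.natCast_dvd_natCast.2 hpn)]
        norm_num
    have h2 := (h p hpn).resolve_right h1
    exact jac_of (fun h3 => hpa (Int.natCast_dvd_natCast.1 h3)) h2) (by
    intro p hp
    have hpp := Nat.prime_of_mem_primeFactors hp
    have : Fact p.Prime := ⟨hpp⟩
    have hpa := Nat.dvd_of_mem_primeFactors hp
    have hpc : ¬ p ∣ c := fun h3 => hpp.one_lt.ne' (Nat.eq_one_of_dvd_coprimes hcop hpa h3)
    have hpn : p ∣ n := by rw [hc]; exact hpa.mul_right c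
    have h1 : ¬ IsSquare ((a : ℤ) : ℚ_[p]) := not_sq_of_val (haK0 p)
      (val_dvd (p := p) (Int.squarefree_natCast.2 hsqa) (Int.natCast_dvd_natCast.2 hpa))
    have h2 := (h p hpn).resolve_left h1
    refine jac_of (fun h3 => hpc (Int.natCast_dvd_natCast.1 h3)) ?_
    refine sq_cancel (x := ((a : ℤ) : ℚ_[p]) * ((a : ℤ) : ℚ_[p]))
      (mul_ne_zero (haK0 p) (haK0 p)) ⟨_, rfl⟩ ?_
    have e' : ((a : ℤ) : ℚ_[p]) * ((a : ℤ) : ℚ_[p]) * ((c : ℤ) : ℚ_[p]) =
        (((a : ℤ) * n : ℤ) : ℚ_[p]) := by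
      rw [hc]
      push_cast
      ring
    rwa [e']) with h1 | h1
  · exact Or.inl h1
  · right
    rw [hc, h1, mul_one]

/-- **The pairs**: only those of the points of order two. -/
theorem pairs (hn : Squarefree n) (h4 : n % 4 = 3) (hn3 : n % 3 ≠ 1)
    (hn5 : n % 5 ≠ 1 ∧ n % 5 ≠ 4) (hQ : Qc n) {e1 e2 : ℤ}
    (q1 : Squarefree e1) (q2 : Squarefree e2)
    (hp : ∀ (p : ℕ) [Fact p.Prime], LocU ℚ_[p] (-(n : ℤ)) e1 e2)
    (hR : LocU ℝ (-(n : ℤ)) e1 e2) :
    (e1 = 1 ∧ e2 = 1) ∨ (e1 = 1 ∧ e2 = -(n : ℤ)) ∨ (e1 = n ∧ e2 = -1) ∨ (e1 = n ∧ e2 = n) := by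
  have hn0 : n ≠ 0 := hn.ne_zero
  have hpos := loc_real_neg (m := -(n : ℤ)) (by omega) q1.ne_zero hR
  obtain ⟨t21, t22, t212⟩ := loc_two (m := -(n : ℤ)) (by omega) q1 q2 (hp 2)
  have hgood : ∀ q : ℕ, q.Prime → ¬ q ∣ n → ¬ (q : ℤ) ∣ e1 ∧ ¬ (q : ℤ) ∣ e2 := by
    intro q hq hqn
    have : Fact q.Prime := ⟨hq⟩
    by_cases hq2 : q = 2
    · subst hq2
      exact ⟨by exact_mod_cast t21, by exact_mod_cast t22⟩
    by_cases hq3 : q = 3
    · subst hq3
      have h3' : n % 3 = 2 := by omega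
      obtain ⟨t31, t32⟩ := loc_three (m := -(n : ℤ)) (by omega) q1 q2 (hp 3)
      exact ⟨by exact_mod_cast t31, by exact_mod_cast t32⟩
    by_cases hq5 : q = 5
    · subst hq5
      have h5' : n % 5 = 2 ∨ n % 5 = 3 := by
        obtain ⟨c1, c2⟩ := hn5
        omega
      have h5'' : (-(n : ℤ)) % 5 = 2 ∨ (-(n : ℤ)) % 5 = 3 := by omega
      obtain ⟨t51, t52⟩ := loc_five_inert (m := -(n : ℤ)) h5'' q1 q2 (hp 5)
      exact ⟨by exact_mod_cast t51, by exact_mod_cast t52⟩
    refine loc_good hq2 hq3 hq5 (m := -(n : ℤ)) (fun hd => hqn ?_) q1 q2 (hp q)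
    rw [dvd_neg] at hd
    exact Int.natCast_dvd_natCast.1 hd
  have hd1 : e1.natAbs ∣ n := dvd_of_pf q1 hn fun q hq hqe => by
    by_contra hqn
    exact (hgood q hq hqn).1 hqe
  have hd2 : e2.natAbs ∣ n := dvd_of_pf q2 hn fun q hq hqe => by
    by_contra hqn
    exact (hgood q hq hqn).2 hqe
  have hbad : ∀ (p : ℕ) [Fact p.Prime], p ∣ n →
      (IsSquare (e1 : ℚ_[p]) ∧ IsSquare (e2 : ℚ_[p])) ∨
      (IsSquare ((e1 : ℚ_[p])) ∧ IsSquare ((e2 * -(n : ℤ) : ℤ) : ℚ_[p])) ∨
      (IsSquare ((e1 * (n : ℤ) : ℤ) : ℚ_[p]) ∧ IsSquare ((-e2 : ℤ) : ℚ_[p])) ∨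
      (IsSquare ((e1 * (n : ℤ) : ℤ) : ℚ_[p]) ∧ IsSquare ((-e2 * -(n : ℤ) : ℤ) : ℚ_[p])) := by
    intro p hpf hpn
    have g2 : p ≠ 2 := by rintro rfl; omega
    have h := loc_bad_all g2 (m := -(n : ℤ)) (by
      rw [← Int.squarefree_natAbs, Int.natAbs_neg, Int.natAbs_natCast]
      exact hn) (by
      rw [dvd_neg]
      exact Int.natCast_dvd_natCast.2 hpn) (hp p)
    have e1' : -(-(n : ℤ)) = n := neg_neg _
    have e2' : -(e2 * -(n : ℤ)) = -e2 * -(n : ℤ) := by ring
    rw [e1', e2'] at h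
    exact h
  -- the first coordinate
  obtain ⟨a, rfl⟩ := Int.eq_ofNat_of_zero_le hpos.le
  rw [Int.natAbs_natCast] at hd1
  have ha := first hn hQ hd1 (fun p _ hpn => by
    rcases hbad p hpn with h | h | h | h
    · exact Or.inl h.1
    · exact Or.inl h.1
    · exact Or.inr h.1
    · exact Or.inr h.1)
  have hval : ∀ (p : ℕ) [Fact p.Prime], p ∣ n → ¬ IsSquare ((n : ℤ) : ℚ_[p]) := by
    intro p _ hpn
    exact not_sq_of_val (by exact_mod_cast hn0) (val_dvd (p := p)
          (Int.squarefree_natCast.2 hn) (Int.natCast_dvd_natCast.2 hpn))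
  rcases ha with rfl | rfl
  · -- the first coordinate is one
    have h1 := second hn h4 hQ q2 (by push_cast at t212; omega) hd2 (fun p _ hpn => by
      rcases hbad p hpn with h | h | h | h
      · exact Or.inl h.2
      · exact Or.inr h.2
      · exact absurd h.1 (by simpa using hval p hpn)
      · exact absurd h.1 (by simpa using hval p hpn))
    rcases h1 with h1 | h1
    · exact Or.inl ⟨rfl, h1⟩
    · exact Or.inr (Or.inl ⟨rfl, h1⟩)
  · -- the first coordinate is `a`
    have he4 : (-e2) % 4 = 1 := by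
      have h5 : ((a : ℤ) * e2) % 4 = 1 := t212
      rw [Int.mul_emod] at h5
      have h6 : (a : ℤ) % 4 = 3 := by omega
      rw [h6] at h5
      omega
    have q2' : Squarefree (-e2) := by
      rw [← Int.squarefree_natAbs, Int.natAbs_neg, Int.squarefree_natAbs]
      exact q2
    have h1 := second hn h4 hQ q2' he4 (by rwa [Int.natAbs_neg]) (fun p _ hpn => by
      rcases hbad p hpn with h | h | h | h
      · exact absurd h.1 (hval p hpn)
      · exact absurd h.1 (hval p hpn)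
      · exact Or.inl h.2
      · exact Or.inr h.2)
    rcases h1 with h1 | h1
    · exact Or.inr (Or.inr (Or.inl ⟨rfl, by omega⟩))
    · exact Or.inr (Or.inr (Or.inr ⟨rfl, by omega⟩))

end

end Pool.Agent.H51.N15
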