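import Pool.Agent.H51.N15.Pairs
import Pool.Graph.R_pool_sql_team_seeded_63374d34.N916.TE.Gq

/-!
# The pairs of square classes for the twists of `X_0(15)` by the even discriminants `-4 N`
-/

set_option autoImplicit false

namespace Pool.Agent.H51.N15

open Finset
open Pool.Agent.N875.X15
open Pool.Agent.H3.X15
open Pool.Agent.N969.P15 (Qe)
open Pool.Agent.Y703.CQ (nr)
open Pool.Agent.N973.ND (uu)

/-- the prime `2`, `m` not `1` modulo `4` -/
theorem loc_two_other {m e1 e2 : ℤ} (hm4 : m % 4 = 2 ∨ m % 4 = 3) (h : LocU ℚ_[2] m e1 e2) :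
    IsSquare ((e1 * e2 : ℤ) : ℚ_[2]) ∨ IsSquare ((e1 * e2 * m : ℤ) : ℚ_[2]) := by
  obtain ⟨u, hu, hv, hw, hs, s1, s2⟩ := h
  have hm0 : m ≠ 0 := by rintro rfl; simp at hm4
  have hmK : (m : ℚ_[2]) ≠ 0 := by exact_mod_cast hm0
  have hv12 : IsSquare ((u + 9 * (m : ℚ_[2])) * ((e1 * e2 : ℤ) : ℚ_[2])) := by
    have h5 : IsSquare (((u - 16 * (m : ℚ_[2])) * e1 * (u * e2)) *
        (u * (u + 9 * m) * (u - 16 * m))) := (s1.mul s2).mul hs
    have e' : ((u - 16 * (m : ℚ_[2])) * e1 * (u * e2)) * (u * (u + 9 * m) * (u - 16 * m)) =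
      (u * (u - 16 * m)) * (u * (u - 16 * m)) * ((u + 9 * m) * ((e1 * e2 : ℤ) : ℚ_[2])) := by
      push_cast
      ring
    rw [e'] at h5
    exact sq_cancel (mul_ne_zero (mul_ne_zero hu hw) (mul_ne_zero hu hw)) ⟨_, rfl⟩ h5
  rcases two_v hm0 hu hv hw hs with k | k | ⟨-, k⟩
  · left
    exact sq_cancel hv k hv12
  · right
    rw [Int.cast_mul]
    exact sq_trans hv (by rwa [mul_comm]) k
  · exfalso
    rcases hm4 with h | h
    · obtain ⟨k', hk⟩ : (2 : ℤ) ∣ m := by omega
      have hk2 : ¬ ((2 : ℕ) : ℤ) ∣ k' := by push_cast; omega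
      have hk0 : (k' : ℚ_[2]) ≠ 0 := by
        have : k' ≠ 0 := by rintro rfl; simp at hk2
        exact_mod_cast this
      refine not_sq_of_val hmK ?_ k
      rw [hk, Int.cast_mul, Padic.valuation_mul (by norm_num) hk0, val_int _ hk2]
      have : (((2 : ℤ)) : ℚ_[2]) = ((2 : ℕ) : ℚ_[2]) := by norm_num
      rw [this, Padic.valuation_p]
      norm_num
    · have := Pool.Agent.Y667.RP.mod_of_sq (d := m) (by omega) k
      omega

section
variable {N : ℕ}

/-- the decompositions of the first kind are trivial -/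
theorem firstE (hN : Squarefree N) (hQ : Qe (4 * N)) {a : ℕ} (ha : Squarefree a)
    (hpr : ∀ q : ℕ, q.Prime → q ∣ a → q = 2 ∨ q ∣ N)
    (h : ∀ (p : ℕ) [Fact p.Prime], p ≠ 2 → p ∣ N →
      IsSquare ((a : ℤ) : ℚ_[p]) ∨ IsSquare (((a : ℤ) * N : ℤ) : ℚ_[p])) :
    a = 1 ∨ a = N := by
  have hN0 : N ≠ 0 := hN.ne_zero
  have ha0 : a ≠ 0 := ha.ne_zero
  have h4 : 4 * N / 4 = N := by omega
  have key := hQ a ha (fun p hp => by
    have hpp := Nat.prime_of_mem_primeFactors hp
    rcases hpr p hpp (Nat.dvd_of_mem_primeFactors hp) with rfl | h1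
    · exact ⟨2 * N, by ring⟩
    · exact h1.mul_left 4) (by
    intro p hp hp2
    have hpp := Nat.prime_of_mem_primeFactors hp
    have : Fact p.Prime := ⟨hpp⟩
    have hpN : p ∣ N := by
      rcases hpp.dvd_mul.1 (Nat.dvd_of_mem_primeFactors hp) with h1 | h1
      · exfalso
        have h2 : p ∣ 2 ^ 2 := by norm_num; exact h1
        exact hp2 ((Nat.prime_dvd_prime_iff_eq hpp Nat.prime_two).1 (hpp.dvd_of_dvd_pow h2))
      · exact h1
    have haK0 : ((a : ℤ) : ℚ_[p]) ≠ 0 := by exact_mod_cast ha0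
    have hNK0 : ((N : ℤ) : ℚ_[p]) ≠ 0 := by exact_mod_cast hN0
    have hNv : ((N : ℤ) : ℚ_[p]).valuation = 1 := val_dvd (p := p)
      (Int.squarefree_natCast.2 hN) (Int.natCast_dvd_natCast.2 hpN)
    rw [h4]
    by_cases hpa : p ∣ a
    · rw [if_pos hpa]
      have h1 : ¬ IsSquare ((a : ℤ) : ℚ_[p]) := not_sq_of_val haK0
        (val_dvd (p := p) (Int.squarefree_natCast.2 ha) (Int.natCast_dvd_natCast.2 hpa))
      have h2 := (h p hp2 hpN).resolve_left h1
      obtain ⟨a', rfl⟩ := hpa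
      obtain ⟨N', rfl⟩ := hpN
      rw [Nat.mul_div_cancel_left _ hpp.pos, Nat.mul_div_cancel_left _ hpp.pos]
      have hpa' : ¬ p ∣ a' := by
        rintro ⟨b, rfl⟩
        exact hpp.one_lt.ne' (Nat.isUnit_iff.1 (ha p ⟨b, by ring⟩))
      have hpN' : ¬ p ∣ N' := by
        rintro ⟨b, rfl⟩
        exact hpp.one_lt.ne' (Nat.isUnit_iff.1 (hN p ⟨b, by ring⟩))
      have hpK : ((p : ℕ) : ℚ_[p]) ≠ 0 := by exact_mod_cast hpp.ne_zero
      refine jac_of (fun h3 => ?_) ?_
      · rcases hpp.dvd_mul.1 (Int.natCast_dvd_natCast.1 h3) with h4 | h4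
        · exact hpa' h4
        · exact hpN' h4
      · refine sq_cancel (x := ((p : ℕ) : ℚ_[p]) * ((p : ℕ) : ℚ_[p]))
          (mul_ne_zero hpK hpK) ⟨_, rfl⟩ ?_
        have e' : ((p : ℕ) : ℚ_[p]) * ((p : ℕ) : ℚ_[p]) * (((a' * N' : ℕ) : ℤ) : ℚ_[p]) =
            ((((p * a' : ℕ) : ℤ) * ((p * N' : ℕ) : ℤ) : ℤ) : ℚ_[p]) := by
          push_cast
          ring
        rwa [e']
    · rw [if_neg hpa]
      have h1 : ¬ IsSquare (((a : ℤ) * N : ℤ) : ℚ_[p]) := by
        refine not_sq_of_val ?_ ?_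
        · exact_mod_cast mul_ne_zero ha0 hN0
        · rw [Int.cast_mul, Padic.valuation_mul haK0 hNK0, val_int (p := p) (a : ℤ)
            (fun h3 => hpa (Int.natCast_dvd_natCast.1 h3)), hNv]
          norm_num
      have h2 := (h p hp2 hpN).resolve_right h1
      exact jac_of (fun h3 => hpa (Int.natCast_dvd_natCast.1 h3)) h2)
  rwa [h4] at key

/-- one symbol -/
theorem jac_nr {a q : ℕ} (ha : a.Prime) (h2 : ¬ a ∣ q) :
    jacobiSym (q : ℤ) a = if nr a q = 0 then 1 else -1 := by
  have h := jac_prod' (q := q) {a} (fun p hp => by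
    rw [mem_singleton] at hp
    subst hp
    exact ⟨ha, h2⟩)
  rwa [prod_singleton, sum_singleton] at h

/-- the decompositions of the second kind are trivial, split at `2` -/
theorem secondE_aux (hN : Squarefree N) (h1 : N ≠ 1)
    (hQ : Qe (4 * N)) {e : ℤ} (he : Squarefree e) (he8 : e % 8 = 1) (hd : e.natAbs ∣ N)
    (h : ∀ (p : ℕ) [Fact p.Prime], p ≠ 2 → p ∣ N →
      IsSquare (e : ℚ_[p]) ∨ IsSquare ((e * -(N : ℤ) : ℤ) : ℚ_[p])) : e = 1 := by
  classical
  have hN0 : N ≠ 0 := hN.ne_zero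
  have he0 : e ≠ 0 := he.ne_zero
  set S := N.primeFactors.erase 2 with hS
  set r : ZMod 2 := if 2 ∣ N then 1 else 0 with hr
  set s : ZMod 2 := 1 + ∑ p ∈ S, uu p with hs
  have hPo : ∀ p ∈ S, Pool.Agent.N916.GB.Po p := fun p hp =>
    ⟨Nat.prime_of_mem_primeFactors (mem_of_mem_erase hp), ne_of_mem_erase hp⟩
  have hG := (Pool.Agent.N916.TE.Gd_iff_Qe hN h1 (r := r) (s := s) hr (by
    rw [hs, ← add_assoc, show (1 : ZMod 2) + 1 = 0 from by decide, zero_add])).2 hQ
  have heo : e.natAbs % 2 = 1 := by omega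
  set x : ℕ → ZMod 2 := fun p => if p ∣ e.natAbs then 1 else 0 with hx
  have hx2 : x 2 = 0 := by
    simp only [hx]
    rw [if_neg]
    omega
  have hV : Pool.Agent.N916.GB.Vt true S = insert 2 S := by
    unfold Pool.Agent.N916.GB.Vt
    rw [if_pos rfl]
  have h2S : 2 ∉ S := fun h => (mem_erase.1 h).1 rfl
  have hsy : ∀ q, ∀ p ∈ S, Pool.Agent.N916.GB.sy r s q p = nr p q := by
    intro q p hp
    unfold Pool.Agent.N916.GB.sy
    rw [if_neg (hPo p hp).2]
  have hsy2 : ∀ q, Pool.Agent.N916.GB.sy r s q 2 = r * nr q 2 + s * uu q := by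
    intro q
    unfold Pool.Agent.N916.GB.sy
    rw [if_pos rfl]
  have hsqe : Squarefree e.natAbs := Int.squarefree_natAbs.2 he
  have hS1 : S.filter (fun p => p ∣ e.natAbs) = e.natAbs.primeFactors := by
    ext p
    rw [mem_filter, hS, mem_erase, Nat.mem_primeFactors, Nat.mem_primeFactors]
    constructor
    · exact fun h1 => ⟨h1.1.2.1, h1.2, Int.natAbs_ne_zero.2 he0⟩
    · refine fun h1 => ⟨⟨?_, h1.1, h1.2.1.trans hd, hN0⟩, h1.2.1⟩
      rintro rfl
      have := h1.2.1
      omega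
  have hpe : ∏ p ∈ e.natAbs.primeFactors, p = e.natAbs :=
    Nat.prod_primeFactors_of_squarefree hsqe
  -- the odd part of `N`
  set C : ℕ := ∏ p ∈ S.filter (fun p => ¬ p ∣ e.natAbs), p with hC
  have hM : e.natAbs * C = ∏ p ∈ S, p := by
    have h6 := prod_filter_mul_prod_filter_not S (fun p => p ∣ e.natAbs) (fun p => p)
    rw [hS1, hpe] at h6
    rw [hC]
    exact h6
  have hMN : (if 2 ∣ N then 2 else 1) * ∏ p ∈ S, p = N := by
    have h2 := Nat.prod_primeFactors_of_squarefree hN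
    by_cases h2N : 2 ∣ N
    · rw [if_pos h2N]
      have h3 : 2 ∈ N.primeFactors := Nat.mem_primeFactors.2 ⟨Nat.prime_two, h2N, hN0⟩
      conv_rhs => rw [← h2]
      exact mul_prod_erase N.primeFactors (fun p => p) h3
    · rw [if_neg h2N, one_mul, hS, erase_eq_of_notMem]
      · exact h2
      · exact fun h3 => h2N (Nat.dvd_of_mem_primeFactors h3)
  have hM4 := Pool.Agent.N916.GB.sum_uu S hPo
  have hodds : ∀ q ∈ S, q % 2 = 1 := fun q hq =>
    ((hPo q hq).1.eq_two_or_odd).resolve_left (hPo q hq).2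
  have key : ∀ q ∈ insert 2 S, ∑ p ∈ insert 2 S, (x p + x q) *
      Pool.Agent.N916.GB.sy r s q p = 0 := by
    intro q hq
    rw [sum_insert h2S]
    rcases mem_insert.1 hq with rfl | hqS
    · -- the prime two
      rw [hx2, add_zero, zero_mul, zero_add]
      have h5 : jacobiSym (2 : ℕ) e.natAbs = 1 := by
        have h6 : jacobiSym 2 e.natAbs = ZMod.χ₈ e.natAbs :=
          jacobiSym.at_two (Nat.odd_iff.2 heo)
        have h7 : e.natAbs % 8 = 1 ∨ e.natAbs % 8 = 7 := by omega
        have h8 : ((2 : ℕ) : ℤ) = 2 := rfl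
        rw [h8, h6, ZMod.χ₈_nat_eq_if_mod_eight, if_neg (by omega), if_pos h7]
      rw [← hpe, jac_prod' _ (fun p hp => ⟨Nat.prime_of_mem_primeFactors hp, fun h6 => by
        have h7 := (Nat.prime_dvd_prime_iff_eq (Nat.prime_of_mem_primeFactors hp)
          Nat.prime_two).1 h6
        have h8 := Nat.dvd_of_mem_primeFactors hp
        rw [h7] at h8
        omega⟩)] at h5
      have h6 : ∑ p ∈ e.natAbs.primeFactors, nr p 2 = 0 := by
        by_contra h7
        rw [if_neg h7] at h5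
        norm_num at h5
      rw [← hS1, sum_filter] at h6
      refine Eq.trans (sum_congr rfl fun p hp => ?_) h6
      rw [hsy 2 p hp, add_zero]
      simp only [hx]
      by_cases hpe : p ∣ e.natAbs
      · rw [if_pos hpe, if_pos hpe, one_mul]
      · rw [if_neg hpe, if_neg hpe, zero_mul]
    · have hqp : q.Prime := (hPo q hqS).1
      have hq2 : q % 2 = 1 := hodds q hqS
      have : Fact q.Prime := ⟨hqp⟩
      have hqN : q ∣ N := Nat.dvd_of_mem_primeFactors (mem_of_mem_erase hqS)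
      have hNK : ((N : ℤ) : ℚ_[q]).valuation = 1 := val_dvd (p := q)
        (Int.squarefree_natCast.2 hN) (Int.natCast_dvd_natCast.2 hqN)
      have hNK0 : ((N : ℤ) : ℚ_[q]) ≠ 0 := by exact_mod_cast hN0
      have heK0 : (e : ℚ_[q]) ≠ 0 := by exact_mod_cast he0
      rw [hx2, zero_add, hsy2]
      by_cases hqe : q ∣ e.natAbs
      · -- `e` is not a square, so the cofactor is one
        have hxq : x q = 1 := by simp only [hx]; rw [if_pos hqe]
        rw [hxq, one_mul]
        obtain ⟨c, hc⟩ : e ∣ -(N : ℤ) := by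
          rw [dvd_neg, ← Int.natAbs_dvd_natAbs, Int.natAbs_natCast]
          exact hd
        have hcN : e.natAbs * c.natAbs = N := by
          rw [← Int.natAbs_mul, ← hc, Int.natAbs_neg, Int.natAbs_natCast]
        have hcop : Nat.Coprime e.natAbs c.natAbs := by
          rw [← hcN] at hN
          exact Nat.coprime_of_squarefree_mul hN
        have hqc : ¬ q ∣ c.natAbs := fun h3 =>
          hqp.one_lt.ne' (Nat.eq_one_of_dvd_coprimes hcop hqe h3)
        have hqc' : ¬ (q : ℤ) ∣ c := fun h3 => hqc (Int.natCast_dvd.1 h3)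
        have h1 : ¬ IsSquare (e : ℚ_[q]) := not_sq_of_val heK0
          (val_dvd he (Int.natCast_dvd.2 hqe))
        have h2 := (h q (hPo q hqS).2 hqN).resolve_left h1
        have h3 : IsSquare ((c : ℤ) : ℚ_[q]) := by
          rw [hc] at h2
          refine sq_cancel (x := (e : ℚ_[q]) * e) (mul_ne_zero heK0 heK0) ⟨_, rfl⟩ ?_
          have e' : (e : ℚ_[q]) * e * c = ((e * (e * c) : ℤ) : ℚ_[q]) := by push_cast; ring
          rwa [e']
        have h4' := jac_of hqc' h3
        -- the odd part of the cofactor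
        have hcC : c.natAbs = (if 2 ∣ N then 2 else 1) * C := by
          have h6 : e.natAbs * c.natAbs = e.natAbs * ((if 2 ∣ N then 2 else 1) * C) := by
            have h7 : (if 2 ∣ N then 2 else 1) * (e.natAbs * C) = N := by rw [hM, hMN]
            rw [hcN, ← Nat.mul_left_comm, h7]
          exact Nat.eq_of_mul_eq_mul_left (Nat.pos_of_ne_zero (Int.natAbs_ne_zero.2 he0)) h6
        obtain ⟨t, ht, htC⟩ : ∃ t : ℤ, c = (if 2 ∣ N then 2 else 1) * t ∧ t.natAbs = C := by
          by_cases h2N : 2 ∣ N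
          · simp only [if_pos h2N] at hcC ⊢
            rcases Int.natAbs_eq c with h6 | h6
            · exact ⟨C, by rw [h6, hcC]; push_cast; ring, Int.natAbs_natCast _⟩
            · exact ⟨-C, by rw [h6, hcC]; push_cast; ring, by rw [Int.natAbs_neg]; rfl⟩
          · simp only [if_neg h2N, one_mul] at hcC ⊢
            exact ⟨c, rfl, hcC⟩
        have hetM : e * t = -((∏ p ∈ S, p : ℕ) : ℤ) := by
          have h6 : (if 2 ∣ N then (2 : ℤ) else 1) * (e * t) =
              (if 2 ∣ N then (2 : ℤ) else 1) * -((∏ p ∈ S, p : ℕ) : ℤ) := by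
            have h7 : -(N : ℤ) = e * ((if 2 ∣ N then 2 else 1) * t) := by rw [← ht]; exact hc
            have h8 : (N : ℤ) = (if 2 ∣ N then (2 : ℤ) else 1) * ((∏ p ∈ S, p : ℕ) : ℤ) := by
              conv_lhs => rw [← hMN]
              rw [Nat.cast_mul]
              congr 1
              split_ifs <;> rfl
            linear_combination -h7 - h8
          refine mul_left_cancel₀ ?_ h6
          split_ifs <;> norm_num
        have hjC : jacobiSym q C = if ∑ p ∈ S.filter (fun p => ¬ p ∣ e.natAbs), nr p q = 0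
            then 1 else -1 := by
          rw [hC]
          refine jac_prod' _ (fun p hp => ?_)
          obtain ⟨h6, h7⟩ := mem_filter.1 hp
          refine ⟨(hPo p h6).1, fun h8 => h7 ?_⟩
          rw [(Nat.prime_dvd_prime_iff_eq (hPo p h6).1 hqp).1 h8]
          exact hqe
        have hj2 : jacobiSym (2 : ℕ) q = if nr q 2 = 0 then 1 else -1 :=
          jac_nr hqp (fun h6 => (hPo q hqS).2 ((Nat.prime_dvd_prime_iff_eq hqp Nat.prime_two).1 h6))
        have hj2' : jacobiSym 2 q = if nr q 2 = 0 then 1 else -1 := hj2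
        have hjm : jacobiSym (-1) q = if uu q = 0 then 1 else -1 := by
          rw [jacobiSym.at_neg_one (Nat.odd_iff.2 hq2)]
          unfold Pool.Agent.N973.ND.uu
          rcases (show q % 4 = 1 ∨ q % 4 = 3 by omega) with h6 | h6
          · rw [ZMod.χ₄_nat_one_mod_four h6, if_neg (show ¬ q % 4 = 3 by omega), if_pos rfl]
          · rw [ZMod.χ₄_nat_three_mod_four h6, if_pos h6, if_neg (by decide)]
        -- the symbol of `c`
        have hjc : (if 2 ∣ N then jacobiSym 2 q else 1) * jacobiSym t q = 1 := by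
          have h6 := h4'
          rw [ht] at h6
          by_cases h2N : 2 ∣ N
          · rw [if_pos h2N] at h6 ⊢
            rwa [jacobiSym.mul_left] at h6
          · rw [if_neg h2N] at h6 ⊢
            rw [one_mul] at h6 ⊢
            exact h6
        have hsum : ∑ p ∈ S, (x p + 1) * Pool.Agent.N916.GB.sy r s q p =
            ∑ p ∈ S.filter (fun p => ¬ p ∣ e.natAbs), nr p q := by
          rw [sum_filter]
          refine sum_congr rfl fun p hp => ?_
          rw [hsy q p hp]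
          simp only [hx]
          by_cases hpe : p ∣ e.natAbs
          · rw [if_pos hpe, if_neg (not_not.2 hpe), show (1 : ZMod 2) + 1 = 0 from by decide,
              zero_mul]
          · rw [if_neg hpe, if_pos hpe, zero_add, one_mul]
        rw [hsum]
        set A := ∑ p ∈ S.filter (fun p => ¬ p ∣ e.natAbs), nr p q with hA
        -- the class of `t` modulo `4`
        have hsgn : jacobiSym q C = (if s = 0 then 1 else jacobiSym (-1) q) * jacobiSym t q := by
          by_cases hz : ∑ p ∈ S, uu p = 0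
          · rw [if_pos hz] at hM4
            have hs1 : s = 1 := by rw [hs, hz, add_zero]
            have ht4 : (-t) % 4 = 1 := by
              have h7 : (e * t) % 4 = 3 := by rw [hetM]; omega
              rw [Int.mul_emod] at h7
              have h8 : e % 4 = 1 := by omega
              rw [h8, one_mul] at h7
              omega
            rw [if_neg (by rw [hs1]; decide), ← jacobiSym.mul_left, neg_one_mul,
              ← recip ht4 hq2, Int.natAbs_neg, htC]
          · rw [if_neg hz] at hM4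
            have hz1 : ∑ p ∈ S, uu p = 1 := (Pool.Agent.N916.GB.z2 _).resolve_left hz
            have hs0 : s = 0 := by rw [hs, hz1]; decide
            have ht4 : t % 4 = 1 := by
              have h7 : (e * t) % 4 = 1 := by rw [hetM]; omega
              rw [Int.mul_emod] at h7
              have h8 : e % 4 = 1 := by omega
              rw [h8, one_mul] at h7
              omega
            rw [if_pos hs0, one_mul, ← recip ht4 hq2, htC]
        rw [hjC, hjm] at hsgn
        rw [hj2'] at hjc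
        have hrr : r = if 2 ∣ N then 1 else 0 := hr
        clear_value r s A
        by_cases h2N : 2 ∣ N
        · rw [if_pos h2N] at hrr hjc
          subst hrr
          rcases Pool.Agent.N916.GB.z2 (nr q 2) with k1 | k1 <;>
            rcases Pool.Agent.N916.GB.z2 (uu q) with k2 | k2 <;>
            rcases Pool.Agent.N916.GB.z2 A with k3 | k3 <;>
            rcases Pool.Agent.N916.GB.z2 s with k4 | k4 <;>
            simp only [k1, k2, k3, k4] at hsgn hjc ⊢ <;>
            first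
              | decide
              | (exfalso
                 simp at hsgn hjc
                 omega)
        · rw [if_neg h2N] at hrr hjc
          subst hrr
          rcases Pool.Agent.N916.GB.z2 (nr q 2) with k1 | k1 <;>
            rcases Pool.Agent.N916.GB.z2 (uu q) with k2 | k2 <;>
            rcases Pool.Agent.N916.GB.z2 A with k3 | k3 <;>
            rcases Pool.Agent.N916.GB.z2 s with k4 | k4 <;>
            simp only [k1, k2, k3, k4] at hsgn hjc ⊢ <;>
            first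
              | decide
              | (exfalso
                 simp at hsgn hjc
                 omega)
      · -- the number `e` is a square
        have hxq : x q = 0 := by simp only [hx]; rw [if_neg hqe]
        rw [hxq, zero_mul, zero_add]
        have hqe' : ¬ (q : ℤ) ∣ e := fun h3 => hqe (Int.natCast_dvd.1 h3)
        have h1 : ¬ IsSquare ((e * -(N : ℤ) : ℤ) : ℚ_[q]) := by
          refine not_sq_of_val ?_ ?_
          · exact_mod_cast mul_ne_zero he0 (neg_ne_zero.2 (by exact_mod_cast hN0))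
          · have e' : ((e * -(N : ℤ) : ℤ) : ℚ_[q]) = ((-e : ℤ) : ℚ_[q]) * ((N : ℤ) : ℚ_[q]) := by
              push_cast; ring
            rw [e', Padic.valuation_mul (by exact_mod_cast neg_ne_zero.2 he0) hNK0, hNK,
              val_int (p := q) (-e) (by rwa [dvd_neg])]
            norm_num
        have h2 := (h q (hPo q hqS).2 hqN).resolve_right h1
        have h4' := jac_of hqe' h2
        have h5 := recip (D := e) (by omega) hq2
        rw [h4'] at h5
        rw [← hpe, jac_prod' _ (fun p hp => ⟨Nat.prime_of_mem_primeFactors hp, fun h6 => hqe (by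
          rw [← (Nat.prime_dvd_prime_iff_eq (Nat.prime_of_mem_primeFactors hp) hqp).1 h6]
          exact Nat.dvd_of_mem_primeFactors hp)⟩)] at h5
        have h6 : ∑ p ∈ e.natAbs.primeFactors, nr p q = 0 := by
          by_contra h7
          rw [if_neg h7] at h5
          norm_num at h5
        rw [← hS1, sum_filter] at h6
        refine Eq.trans (sum_congr rfl fun p hp => ?_) h6
        rw [hsy q p hp, add_zero]
        simp only [hx]
        by_cases hpe : p ∣ e.natAbs
        · rw [if_pos hpe, if_pos hpe, one_mul]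
        · rw [if_neg hpe, if_neg hpe, zero_mul]
  have hconst := hG x (by rw [hV]; exact key)
  rw [hV] at hconst
  have h2 : e.natAbs.primeFactors = ∅ := by
    rw [← hS1, filter_eq_empty_iff]
    intro p hp hpe
    have h3 := hconst p (mem_insert_of_mem hp) 2 (mem_insert_self _ _)
    rw [hx2] at h3
    simp only [hx] at h3
    rw [if_pos hpe] at h3
    exact one_ne_zero h3
  have h3 : e.natAbs = 1 := by
    rw [← hpe, h2, prod_empty]
  omega

/-- the decompositions of the second kind are trivial -/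
theorem secondE (hN : Squarefree N) (h1 : N ≠ 1) (hQ : Qe (4 * N)) {e : ℤ} (he : Squarefree e)
    (hpr : ∀ q : ℕ, q.Prime → (q : ℤ) ∣ e → q = 2 ∨ q ∣ N)
    (h2 : IsSquare (e : ℚ_[2]) ∨ IsSquare ((e * -(N : ℤ) : ℤ) : ℚ_[2]))
    (h : ∀ (p : ℕ) [Fact p.Prime], p ≠ 2 → p ∣ N →
      IsSquare (e : ℚ_[p]) ∨ IsSquare ((e * -(N : ℤ) : ℤ) : ℚ_[p])) : e = 1 ∨ e = -(N : ℤ) := by
  have hN0 : (-(N : ℤ)) ≠ 0 := neg_ne_zero.2 (by exact_mod_cast hN.ne_zero)
  have hNs : Squarefree (-(N : ℤ)) := by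
    rw [← Int.squarefree_natAbs, Int.natAbs_neg, Int.natAbs_natCast]
    exact hN
  have base : ∀ {c : ℤ}, Squarefree c →
      (∀ q : ℕ, q.Prime → (q : ℤ) ∣ c → q = 2 ∨ q ∣ N) → IsSquare (c : ℚ_[2]) →
      (∀ (p : ℕ) [Fact p.Prime], p ≠ 2 → p ∣ N →
        IsSquare (c : ℚ_[p]) ∨ IsSquare ((c * -(N : ℤ) : ℤ) : ℚ_[p])) → c = 1 := by
    intro c hc hcp hc2 hcl
    have h8 := Pool.Agent.Y667.RP.mod_of_sq (d := c) (fun h3 =>
      not_sq_of_val (p := 2) (by exact_mod_cast hc.ne_zero)
        (val_dvd (p := 2) hc (by exact_mod_cast h3)) hc2) hc2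
    refine secondE_aux hN h1 hQ hc h8 (dvd_of_pf hc hN fun q hq hqe => ?_) hcl
    rcases hcp q hq hqe with rfl | h3
    · push_cast at hqe
      omega
    · exact h3
  rcases h2 with h2 | h2
  · exact Or.inl (base he hpr h2 h)
  · right
    obtain ⟨g, e', N', hg, hcop, hee, hNN⟩ := Int.exists_gcd_one' (m := e) (n := -(N : ℤ))
      (Int.gcd_pos_of_ne_zero_left _ he.ne_zero)
    have hg0 : (g : ℤ) ≠ 0 := by exact_mod_cast hg.ne'
    have hN'0 : N' ≠ 0 := by
      rintro rfl
      rw [zero_mul] at hNN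
      exact hN0 hNN
    have hcs : Squarefree (e' * N') := by
      rw [squarefree_mul_iff]
      refine ⟨(Int.isCoprime_iff_gcd_eq_one.2 hcop).isRelPrime, ?_, ?_⟩
      · exact he.squarefree_of_dvd ⟨g, hee⟩
      · exact hNs.squarefree_of_dvd ⟨g, hNN⟩
    have t1 : ∀ (p : ℕ) [Fact p.Prime], IsSquare ((e * -(N : ℤ) : ℤ) : ℚ_[p]) →
        IsSquare ((e' * N' : ℤ) : ℚ_[p]) := by
      intro p _ h3
      have hgK : ((g : ℤ) : ℚ_[p]) ≠ 0 := by exact_mod_cast hg0
      refine sq_cancel (x := ((g : ℤ) : ℚ_[p]) * ((g : ℤ) : ℚ_[p]))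
        (mul_ne_zero hgK hgK) ⟨_, rfl⟩ ?_
      have e1 : ((g : ℤ) : ℚ_[p]) * ((g : ℤ) : ℚ_[p]) * ((e' * N' : ℤ) : ℚ_[p]) =
          ((e * -(N : ℤ) : ℤ) : ℚ_[p]) := by
        rw [hNN, hee]
        push_cast
        ring
      rwa [e1]
    have t2 : ∀ (p : ℕ) [Fact p.Prime], IsSquare ((e : ℤ) : ℚ_[p]) →
        IsSquare ((e' * N' * -(N : ℤ) : ℤ) : ℚ_[p]) := by
      intro p _ h3
      have e1 : ((e' * N' * -(N : ℤ) : ℤ) : ℚ_[p]) =
          (((N' : ℤ) : ℚ_[p]) * ((N' : ℤ) : ℚ_[p])) * ((e : ℤ) : ℚ_[p]) := by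
        rw [hNN, hee]
        push_cast
        ring
      rw [e1]
      exact IsSquare.mul ⟨_, rfl⟩ h3
    have hc1 := base hcs (by
      intro q hq hqc
      rcases Int.Prime.dvd_mul' hq hqc with h3 | h3
      · exact hpr q hq (by rw [hee]; exact h3.mul_right _)
      · right
        have h4 : (q : ℤ) ∣ -(N : ℤ) := by rw [hNN]; exact h3.mul_right _
        rw [dvd_neg] at h4
        exact Int.natCast_dvd_natCast.1 h4) (t1 2 h2) (fun p _ hp2 hpN => by
      rcases h p hp2 hpN with h3 | h3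
      · exact Or.inr (t2 p h3)
      · exact Or.inl (t1 p h3))
    rcases Int.mul_eq_one_iff_eq_one_or_neg_one.1 hc1 with ⟨h3, h4⟩ | ⟨h3, h4⟩
    · rw [hee, hNN, h3, h4]
    · rw [hee, hNN, h3, h4]

/-- **The pairs**: only those of the points of order two. -/
theorem pairsE (hN : Squarefree N) (h4 : N % 4 = 1 ∨ N % 4 = 2) (hn3 : N % 3 ≠ 1)
    (hn5 : N % 5 ≠ 1 ∧ N % 5 ≠ 4) (hQ : Qe (4 * N)) {e1 e2 : ℤ}
    (q1 : Squarefree e1) (q2 : Squarefree e2)
    (hp : ∀ (p : ℕ) [Fact p.Prime], LocU ℚ_[p] (-(N : ℤ)) e1 e2)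
    (hR : LocU ℝ (-(N : ℤ)) e1 e2) :
    (e1 = 1 ∧ e2 = 1) ∨ (e1 = 1 ∧ e2 = -(N : ℤ)) ∨ (e1 = N ∧ e2 = -1) ∨ (e1 = N ∧ e2 = N) := by
  have hN0 : N ≠ 0 := hN.ne_zero
  have hN1 : N ≠ 1 := by rintro rfl; exact hn3 rfl
  have hpos := loc_real_neg (m := -(N : ℤ)) (by omega) q1.ne_zero hR
  have t2 := loc_two_other (m := -(N : ℤ)) (by omega) (hp 2)
  have hgood : ∀ q : ℕ, q.Prime → q ≠ 2 → ¬ q ∣ N → ¬ (q : ℤ) ∣ e1 ∧ ¬ (q : ℤ) ∣ e2 := by
    intro q hq hq2 hqn
    have : Fact q.Prime := ⟨hq⟩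
    by_cases hq3 : q = 3
    · subst hq3
      have h3' : N % 3 = 2 := by omega
      obtain ⟨t31, t32⟩ := loc_three (m := -(N : ℤ)) (by omega) q1 q2 (hp 3)
      exact ⟨by exact_mod_cast t31, by exact_mod_cast t32⟩
    by_cases hq5 : q = 5
    · subst hq5
      have h5' : N % 5 = 2 ∨ N % 5 = 3 := by
        obtain ⟨c1, c2⟩ := hn5
        omega
      have h5'' : (-(N : ℤ)) % 5 = 2 ∨ (-(N : ℤ)) % 5 = 3 := by omega
      obtain ⟨t51, t52⟩ := loc_five_inert (m := -(N : ℤ)) h5'' q1 q2 (hp 5)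
      exact ⟨by exact_mod_cast t51, by exact_mod_cast t52⟩
    refine loc_good hq2 hq3 hq5 (m := -(N : ℤ)) (fun hd => hqn ?_) q1 q2 (hp q)
    rw [dvd_neg] at hd
    exact Int.natCast_dvd_natCast.1 hd
  have hd1 : ∀ q : ℕ, q.Prime → (q : ℤ) ∣ e1 → q = 2 ∨ q ∣ N := by
    intro q hq hqe
    by_contra hcon
    push Not at hcon
    exact (hgood q hq hcon.1 hcon.2).1 hqe
  have hd2 : ∀ q : ℕ, q.Prime → (q : ℤ) ∣ e2 → q = 2 ∨ q ∣ N := by
    intro q hq hqe
    by_contra hcon
    push Not at hcon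
    exact (hgood q hq hcon.1 hcon.2).2 hqe
  have hbad : ∀ (p : ℕ) [Fact p.Prime], p ≠ 2 → p ∣ N →
      (IsSquare (e1 : ℚ_[p]) ∧ IsSquare (e2 : ℚ_[p])) ∨
      (IsSquare ((e1 : ℚ_[p])) ∧ IsSquare ((e2 * -(N : ℤ) : ℤ) : ℚ_[p])) ∨
      (IsSquare ((e1 * (N : ℤ) : ℤ) : ℚ_[p]) ∧ IsSquare ((-e2 : ℤ) : ℚ_[p])) ∨
      (IsSquare ((e1 * (N : ℤ) : ℤ) : ℚ_[p]) ∧ IsSquare ((-e2 * -(N : ℤ) : ℤ) : ℚ_[p])) := by
    intro p hpf g2 hpn
    have h := loc_bad_all g2 (m := -(N : ℤ)) (by
      rw [← Int.squarefree_natAbs, Int.natAbs_neg, Int.natAbs_natCast]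
      exact hN) (by
      rw [dvd_neg]
      exact Int.natCast_dvd_natCast.2 hpn) (hp p)
    have e1' : -(-(N : ℤ)) = N := neg_neg _
    have e2' : -(e2 * -(N : ℤ)) = -e2 * -(N : ℤ) := by ring
    rw [e1', e2'] at h
    exact h
  -- the first coordinate
  obtain ⟨a, rfl⟩ := Int.eq_ofNat_of_zero_le hpos.le
  have ha := firstE hN hQ (Int.squarefree_natCast.1 q1)
    (fun q hq hqa => hd1 q hq (Int.natCast_dvd_natCast.2 hqa)) (fun p _ hp2 hpn => by
    rcases hbad p hp2 hpn with h | h | h | h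
    · exact Or.inl h.1
    · exact Or.inl h.1
    · exact Or.inr h.1
    · exact Or.inr h.1)
  have hval : ∀ (p : ℕ) [Fact p.Prime], p ∣ N → ¬ IsSquare ((N : ℤ) : ℚ_[p]) := by
    intro p _ hpn
    exact not_sq_of_val (by exact_mod_cast hN0) (val_dvd (p := p)
          (Int.squarefree_natCast.2 hN) (Int.natCast_dvd_natCast.2 hpn))
  rcases ha with rfl | rfl
  · -- the first coordinate is one
    have h1 := secondE hN hN1 hQ q2 hd2 (by
      have e1 : ((1 : ℕ) : ℤ) * e2 = e2 := by push_cast; ring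
      rw [e1] at t2
      exact t2) (fun p _ hp2 hpn => by
      rcases hbad p hp2 hpn with h | h | h | h
      · exact Or.inl h.2
      · exact Or.inr h.2
      · exact absurd h.1 (by simpa using hval p hpn)
      · exact absurd h.1 (by simpa using hval p hpn))
    rcases h1 with h1 | h1
    · exact Or.inl ⟨rfl, h1⟩
    · exact Or.inr (Or.inl ⟨rfl, h1⟩)
  · -- the first coordinate is `a`
    have q2' : Squarefree (-e2) := by
      rw [← Int.squarefree_natAbs, Int.natAbs_neg, Int.squarefree_natAbs]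
      exact q2
    have h1 := secondE hN hN1 hQ q2' (fun q hq hqe => hd2 q hq (by rwa [dvd_neg] at hqe)) (by
      rcases t2 with t | t
      · right
        have e1 : (-e2 * -(a : ℤ)) = (a : ℤ) * e2 := by ring
        rw [e1]
        exact t
      · left
        have haK : ((a : ℤ) : ℚ_[2]) ≠ 0 := by exact_mod_cast hN0
        refine sq_cancel (x := ((a : ℤ) : ℚ_[2]) * ((a : ℤ) : ℚ_[2]))
          (mul_ne_zero haK haK) ⟨_, rfl⟩ ?_
        have e1 : ((a : ℤ) : ℚ_[2]) * ((a : ℤ) : ℚ_[2]) * ((-e2 : ℤ) : ℚ_[2]) =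
            (((a : ℤ) * e2 * -(a : ℤ) : ℤ) : ℚ_[2]) := by
          push_cast
          ring
        rw [e1]
        exact t) (fun p _ hp2 hpn => by
      rcases hbad p hp2 hpn with h | h | h | h
      · exact absurd h.1 (hval p hpn)
      · exact absurd h.1 (hval p hpn)
      · exact Or.inl h.2
      · exact Or.inr h.2)
    rcases h1 with h1 | h1
    · exact Or.inr (Or.inr (Or.inl ⟨rfl, by omega⟩))
    · exact Or.inr (Or.inr (Or.inr ⟨rfl, by omega⟩))

end

end Pool.Agent.H51.N15
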