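import Pool.Agent.H51.N15.Pairs
import Pool.Agent.H3.X15.Rank

/-!
# The twists of `X_0(15)` by the odd discriminants `-n`: rank zero under the criterion
-/

set_option autoImplicit false

namespace Pool.Agent.H51.N15

open WeierstrassCurve
open Pool.Agent.N969.P15 (Qc)
open Pool.Agent.W262.SH (Sha)
open Pool.Agent.TH841.SH
open Pool.Agent.H3.X15

open scoped Classical

/-- the quadratic twist by `m` of `X_0(15)`, `y² = x³ - 12987 m² x - 263466 m³` -/
def EZ (m : ℤ) : WeierstrassCurve ℚ :=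
  { a₁ := 0, a₂ := 0, a₃ := 0, a₄ := ((-12987 * m ^ 2 : ℤ) : ℚ),
    a₆ := ((-263466 * m ^ 3 : ℤ) : ℚ) }

theorem isRZ (m : ℤ) : IsR (EZ m) (123 * (m : ℚ)) (-21 * (m : ℚ)) (-102 * (m : ℚ)) where
  h1 := rfl
  h2 := by
    show (0 : ℚ) = _
    ring
  h3 := rfl
  h4 := by
    show ((-12987 * m ^ 2 : ℤ) : ℚ) = _
    push_cast
    ring
  h6 := by
    show ((-263466 * m ^ 3 : ℤ) : ℚ) = _
    push_cast
    ring

theorem fgZ (m : ℤ) (hm : m ≠ 0) : AddGroup.FG (EZ m).toAffine.Point := by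
  have h := Pool.Agent.H64R2.DCMW.mw (-12987 * m ^ 2) (-263466 * m ^ 3) (by
    have h6 : m ^ 6 ≠ 0 := pow_ne_zero _ hm
    intro h0
    apply h6
    have e : 4 * (-12987 * m ^ 2) ^ 3 + 27 * (-263466 * m ^ 3) ^ 2 =
      (4 * (-12987) ^ 3 + 27 * 263466 ^ 2) * m ^ 6 := by ring
    rw [e] at h0
    rcases mul_eq_zero.1 h0 with h | h
    · norm_num at h
    · exact h)
  refine Pool.Agent.H64R2.DCMW.fg_of_eq ?_ h
  rfl

section
variable {m : ℤ} (hm : m ≠ 0)
include hm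

theorem ne1 : 123 * (m : ℚ) ≠ -21 * (m : ℚ) := by
  have h0 : (m : ℚ) ≠ 0 := by exact_mod_cast hm
  intro h
  apply h0
  linarith

theorem ne2 : 123 * (m : ℚ) ≠ -102 * (m : ℚ) := by
  have h0 : (m : ℚ) ≠ 0 := by exact_mod_cast hm
  intro h
  apply h0
  linarith

theorem ne3 : -21 * (m : ℚ) ≠ -102 * (m : ℚ) := by
  have h0 : (m : ℚ) ≠ 0 := by exact_mod_cast hm
  intro h
  apply h0
  linarith

/-- rank zero, if there are at most four pairs -/
theorem rank_of (Z : Finset (ℤ × ℤ)) (hZ4 : Z.card ≤ 4)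
    (hZ : ∀ e1 e2 : ℤ, Squarefree e1 → Squarefree e2 →
      (∀ (p : ℕ) [Fact p.Prime], LocU ℚ_[p] m e1 e2) → LocU ℝ m e1 e2 → (e1, e2) ∈ Z) :
    Module.finrank ℤ (EZ m).toAffine.Point = 0 ∧ Finite (EZ m).toAffine.Point ∧
      ∀ x : Sha (EZ m), x + x = 0 → x = 0 := by
  have hab := ne1 hm
  have hac := ne2 hm
  have hbc := ne3 hm
  obtain ⟨hfin, hcard⟩ := card_sel_le (isRZ m) hab hac hbc Z
    (by
      intro e1 e2 q1 q2 hp hR
      exact hZ e1 e2 q1 q2 (fun p _ => locU_of (hp p)) (locU_of hR))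
  have hcard4 : Nat.card (selHom (EZ m)) ≤ 4 := hcard.trans hZ4
  have hfg := fgZ m hm
  obtain ⟨hs, hle⟩ := card_le4 (isRZ m) hab hac hbc hfg
  rw [card_two (isRZ m) hab hac hbc] at hle
  have hpos : 0 < Nat.card {x : Sha (EZ m) // x + x = 0} := by
    have : Nonempty {x : Sha (EZ m) // x + x = 0} := ⟨⟨0, add_zero 0⟩⟩
    exact Nat.card_pos
  have hle2 := hle.trans hcard4
  have hr : Module.finrank ℤ (EZ m).toAffine.Point = 0 := by
    by_contra hr
    have h2 : 2 ≤ 2 ^ Module.finrank ℤ (EZ m).toAffine.Point := by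
      calc 2 = 2 ^ 1 := by norm_num
        _ ≤ _ := Nat.pow_le_pow_right (by norm_num) (Nat.one_le_iff_ne_zero.2 hr)
    nlinarith
  refine ⟨hr, ?_, ?_⟩
  · have hmf : Module.Finite ℤ (EZ m).toAffine.Point := Module.Finite.iff_addGroup_fg.mpr hfg
    have ht : Module.IsTorsion ℤ (EZ m).toAffine.Point := by
      rw [← Module.finrank_eq_zero_iff_isTorsion]
      exact hr
    exact Module.finite_of_fg_torsion _ ht
  · intro x hx
    rw [hr, pow_zero, one_mul] at hle2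
    have h3 : Nat.card {x : Sha (EZ m) // x + x = 0} ≤ 1 := by omega
    have h4 : Subsingleton {x : Sha (EZ m) // x + x = 0} := by
      rw [← Finite.card_le_one_iff_subsingleton]
      exact h3
    have h5 := h4.elim ⟨x, hx⟩ ⟨0, add_zero 0⟩
    exact congrArg Subtype.val h5

/-- finitely many affine points -/
theorem finPtsZ (hf : Finite (EZ m).toAffine.Point) :
    {q : ℚ × ℚ | q.2 ^ 2 = q.1 ^ 3 + ((-12987 * m ^ 2 : ℤ) : ℚ) * q.1 +
      ((-263466 * m ^ 3 : ℤ) : ℚ)}.Finite := by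
  have hab := ne1 hm
  have hac := ne2 hm
  have hbc := ne3 hm
  have hns : ∀ x y : ℚ, y ^ 2 = x ^ 3 + ((-12987 * m ^ 2 : ℤ) : ℚ) * x +
      ((-263466 * m ^ 3 : ℤ) : ℚ) → (EZ m).toAffine.Nonsingular x y := by
    intro x y h
    refine (isRZ m).nons two_ne_zero hab hac hbc ?_
    rw [h]
    push_cast
    ring
  let g : {q : ℚ × ℚ | q.2 ^ 2 = q.1 ^ 3 + ((-12987 * m ^ 2 : ℤ) : ℚ) * q.1 +
      ((-263466 * m ^ 3 : ℤ) : ℚ)} → (EZ m).toAffine.Point :=
    fun q => .some q.1.1 q.1.2 (hns _ _ q.2)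
  have hg : Function.Injective g := by
    intro q q' h
    have h' : (Affine.Point.some q.1.1 q.1.2 (hns _ _ q.2) : (EZ m).toAffine.Point) =
      .some q'.1.1 q'.1.2 (hns _ _ q'.2) := h
    rw [Affine.Point.some.injEq] at h'
    exact Subtype.ext (Prod.ext h'.1 h'.2)
  have hfin := Finite.of_injective g hg
  exact Set.toFinite _

end

/-- **Rank zero and `Ш[2] = 0` under the criterion.** -/
theorem rank_sha {n : ℕ} (hn : Squarefree n) (h4 : n % 4 = 3) (hn3 : n % 3 ≠ 1)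
    (hn5 : n % 5 ≠ 1 ∧ n % 5 ≠ 4) (hQ : Qc n) :
    Module.finrank ℤ (EZ (-(n : ℤ))).toAffine.Point = 0 ∧
      Finite (EZ (-(n : ℤ))).toAffine.Point ∧
      ∀ x : Sha (EZ (-(n : ℤ))), x + x = 0 → x = 0 := by
  refine rank_of (neg_ne_zero.2 (by exact_mod_cast hn.ne_zero))
    ({((1 : ℤ), (1 : ℤ)), (1, -(n : ℤ)), ((n : ℤ), -1), ((n : ℤ), (n : ℤ))} : Finset (ℤ × ℤ))
    Finset.card_le_four ?_
  intro e1 e2 q1 q2 hp hR
  have := pairs hn h4 hn3 hn5 hQ q1 q2 hp hR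
  simp only [Finset.mem_insert, Finset.mem_singleton, Prod.mk.injEq]
  exact this

end Pool.Agent.H51.N15
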