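import Pool.Agent.H51.N15.PairsE
import Pool.Agent.H51.N15.Rank

/-!
# The twists of `X_0(15)` by the even discriminants `-4 N`: rank zero under the criterion
-/

set_option autoImplicit false

namespace Pool.Agent.H51.N15

open WeierstrassCurve
open Pool.Agent.N969.P15 (Qe)
open Pool.Agent.W262.SH (Sha)
open Pool.Agent.H3.X15

open scoped Classical

/-- **Rank zero and `Ш[2] = 0` under the criterion.** -/
theorem rank_shaE {N : ℕ} (hN : Squarefree N) (h4 : N % 4 = 1 ∨ N % 4 = 2) (hn3 : N % 3 ≠ 1)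
    (hn5 : N % 5 ≠ 1 ∧ N % 5 ≠ 4) (hQ : Qe (4 * N)) :
    Module.finrank ℤ (EZ (-(N : ℤ))).toAffine.Point = 0 ∧
      Finite (EZ (-(N : ℤ))).toAffine.Point ∧
      ∀ x : Sha (EZ (-(N : ℤ))), x + x = 0 → x = 0 := by
  refine rank_of (neg_ne_zero.2 (by exact_mod_cast hN.ne_zero))
    ({((1 : ℤ), (1 : ℤ)), (1, -(N : ℤ)), ((N : ℤ), -1), ((N : ℤ), (N : ℤ))} : Finset (ℤ × ℤ))
    Finset.card_le_four ?_
  intro e1 e2 q1 q2 hp hR
  have := pairsE hN h4 hn3 hn5 hQ q1 q2 hp hR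
  simp only [Finset.mem_insert, Finset.mem_singleton, Prod.mk.injEq]
  exact this

end Pool.Agent.H51.N15
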