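import Pool.Graph.R_pool_sql_team_seeded_63374d34.N969.P15.Glue
import Pool.Graph.R_pool_sql_team_seeded_63374d34.N969.P15.DIAG
import Pool.Graph.R_pool_sql_team_seeded_63374d34.N973.P15.BIL
import Pool.Graph.R_pool_sql_team_seeded_63374d34.N973.P15.REL22
import Pool.Graph.R_pool_sql_team_seeded_63374d34.N973.P15.REL5
import Pool.Graph.R_pool_sql_team_seeded_63374d34.N973.P15.CP35
import Pool.Graph.R_pool_sql_team_seeded_63374d34.N973.P15.C1A
import Pool.Graph.R_pool_sql_team_seeded_63374d34.N973.P15.SymA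
import Pool.Graph.R_pool_sql_team_seeded_63374d34.N973.P15.SymB
import Pool.Graph.R_pool_sql_team_seeded_63374d34.N973.P15.DIAG3
import Pool.Graph.R_pool_sql_team_seeded_63374d34.N974.P15.DIAG15
import Pool.Graph.R_pool_sql_team_seeded_63374d34.N974.P15.DIAG5
import Pool.Graph.R_pool_sql_team_seeded_63374d34.N402.P15.C1B
import Pool.Graph.R_pool_sql_team_seeded_63374d34.N295.P15.C2
import Pool.Graph.R_pool_sql_team_seeded_63374d34.N295.P15.C3
import Pool.Graph.R_pool_sql_team_seeded_63374d34.N575.P15.HE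
import Pool.Graph.R_pool_sql_team_seeded_63374d34.N575.P15.T3
import Pool.Graph.R_pool_sql_team_seeded_63374d34.N871.P15.Fin
import Pool.Graph.R_pool_sql_team_seeded_63374d34.N871.P15.Rel
import Pool.Graph.R_pool_sql_team_seeded_63374d34.N218.P15.Para
import Pool.Graph.R_pool_sql_team_seeded_63374d34.N218.P15.Fin5
import Pool.Graph.R_pool_sql_team_seeded_63374d34.N975.CHB
import Pool.Graph.R_pool_sql_team_seeded_63374d34.N974.MF.LfinG

/-!
# The central values of the twists of `X_0(15)` by the odd discriminants `-n`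
-/

set_option autoImplicit false

namespace Pool.Agent.H51.N15

open Finset
open Pool.Agent.N969.P15 (Cls0 Qc S_DIAG value_of un cc)
open Pool.Agent.N973.P15 (Cl3 Cl5 Cl15 FA S_DIAG3 S_DIAG5 S_DIAG15)

theorem s_DIAG : S_DIAG :=
  Pool.Agent.N969.P15.t_DIAG Pool.Agent.N973.P15.C.t_C1A Pool.Agent.N402.P15.t_C1B
    Pool.Agent.N295.P15.t_C2A Pool.Agent.N295.P15.t_C2B
    (Pool.Agent.N973.P15.t_BIL1 Pool.Agent.N973.P15.t_REL22 Pool.Agent.N871.P15.s_CP3)
    (Pool.Agent.N973.P15.t_BIL2 Pool.Agent.N973.P15.t_REL22 Pool.Agent.N871.P15.s_CP3)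
    Pool.Agent.N575.P15.t_HE

theorem s_DIAG3 : S_DIAG3 :=
  Pool.Agent.N973.P15.t_DIAG3 Pool.Agent.N402.P15.t_C1B Pool.Agent.N295.TP.t_C23A
    Pool.Agent.N295.TP.t_C23B Pool.Agent.N972.PC15.t_PC Pool.Agent.N871.P15.s_REL33
    Pool.Agent.N575.P15.T3.t_HE3

theorem s_DIAG15 : S_DIAG15 :=
  Pool.Agent.N974.P15.t_DIAG15 Pool.Agent.N402.P15.t_C1B Pool.Agent.N295.TP.t_C25A
    Pool.Agent.N295.TP.t_C25B Pool.Agent.N575.P15.T3.t_PC5' Pool.Agent.N871.P15.s_REL33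
    Pool.Agent.N575.P15.T3.t_HE3

theorem s_DIAG5 : S_DIAG5 :=
  Pool.Agent.N974.P15.t_DIAG5 Pool.Agent.N402.P15.t_C1B Pool.Agent.N295.TP.t_C25A
    Pool.Agent.N295.TP.t_C25B Pool.Agent.N575.P15.T3.t_PC5'
    (Pool.Agent.N973.P15.t_CP35 Pool.Agent.N575.P15.T3.t_PC5') Pool.Agent.N973.P15.t_REL5
    Pool.Agent.N575.P15.t_HE

/-- the class of the odd discriminants: `3` is not inert and `5` does not split -/
structure ClO (n : ℕ) : Prop where
  sq : Squarefree n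
  four : n % 4 = 3
  three : n % 3 ≠ 1
  five : n % 5 ≠ 1 ∧ n % 5 ≠ 4

/-- the Gross sum is not zero -/
theorem cc_ne {n : ℕ} (hn : ClO n) (h3 : n ≠ 3) (hQ : Qc n) : cc n ≠ 0 := by
  have key : ∀ {k : ℕ} {y : ℤ}, cc n = 2 ^ k * y → Odd y → cc n ≠ 0 := by
    intro k y h1 h2
    rw [h1]
    refine mul_ne_zero (pow_ne_zero _ two_ne_zero) ?_
    rintro rfl
    exact absurd h2 (by decide)
  obtain ⟨hs, h4, hh3, hh5⟩ := hn
  by_cases c5 : 5 ∣ n
  · have : Cl15 n ∨ Cl5 n := by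
      by_cases c3 : 3 ∣ n
      · exact Or.inl ⟨hs, h4, c3, c5⟩
      · exact Or.inr ⟨hs, h4, by omega, c5⟩
    obtain ⟨y, h1, h2⟩ := Pool.Agent.N218.P15.s_PARA5 n this
    exact key h1 (h2.2 hQ)
  · by_cases c3 : 3 ∣ n
    · obtain ⟨y, h1, h2⟩ := Pool.Agent.N218.P15.s_PARA3 n ⟨hs, h4, c3, by omega⟩ (by omega)
      exact key h1 (h2.2 hQ)
    · obtain ⟨y, h1, h2⟩ := Pool.Agent.N871.P15.s_PAR n ⟨hs, by omega⟩
      exact key h1 (h2.2 hQ)

/-- the character sum of the odd symbol does not vanish -/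
theorem sum_ne' {s : ℚ → ℤ} {a : ℕ → ℤ} (H : Pool.Agent.N974.MF.Symb15 s a) {n : ℕ} (hn : ClO n)
    (h3 : n ≠ 3) (hQ : Qc n) : ∑ u ∈ un n, jacobiSym u n * s ((u : ℚ) / n) ≠ 0 := by
  have hcc := cc_ne hn h3 hQ
  have hcc2 : cc n ^ 2 ≠ 0 := pow_ne_zero _ hcc
  have h13 : s (1 / 3) ≠ 0 := by
    have h5 : Odd (s (1 / 3)) := by
      refine H.odd3 (1 / 3) ?_ ?_ <;> norm_num
    intro h6
    rw [h6] at h5
    exact absurd h5 (by decide)
  obtain ⟨hs, h4, hh3, hh5⟩ := id hn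
  have hn0 : n ≠ 0 := hs.ne_zero
  by_cases c3 : 3 ∣ n
  · -- the symbol in terms of the counting function
    have e1 : ∑ u ∈ un n, jacobiSym u n * s ((u : ℚ) / n) =
        -s (1 / 3) * ∑ u ∈ un n, jacobiSym u n * FA u n := by
      rw [Finset.mul_sum]
      refine Finset.sum_congr rfl fun u hu => ?_
      have hu2 : Nat.Coprime u n := (Finset.mem_filter.1 hu).2
      have h1 := Pool.Agent.N973.P15.SA.t_SYMA s a H (u : ℤ) (n : ℤ) (by exact_mod_cast hn0)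
        (by exact_mod_cast c3) (Nat.isCoprime_iff_coprime.2 hu2)
      have h2 : s (((u : ℕ) : ℚ) / ((n : ℕ) : ℚ)) = -s (1 / 3) * FA u n := by
        rw [← h1]
        push_cast
        rfl
      rw [h2]
      ring
    rw [e1]
    refine mul_ne_zero (neg_ne_zero.2 h13) fun h0 => hcc2 ?_
    by_cases c5 : 5 ∣ n
    · have h7 := s_DIAG15 n ⟨hs, h4, c3, c5⟩
      rw [h0] at h7
      linarith
    · have h7 := s_DIAG3 n ⟨hs, h4, c3, by omega⟩
      rw [h0] at h7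
      linarith
  · by_cases c5 : 5 ∣ n
    · have e1 := ((Pool.Agent.N975.CHB.t_SUMB Pool.Agent.N973.P15.SB.t_SYMB) s a H).1 n
        ⟨hs, h4, by omega, c5⟩
      rw [e1]
      refine mul_ne_zero (neg_ne_zero.2 h13) fun h0 => hcc2 ?_
      have h7 := s_DIAG5 n ⟨hs, h4, by omega, c5⟩
      rw [h0] at h7
      linarith
    · have h14 : s (1 / 4) ≠ 0 := by
        rw [H.s14]
        intro h6
        omega
      exact Pool.Agent.N975.Sym.sum_symb_ne s_DIAG Pool.Agent.N871.P15.s_PAR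
        (Pool.Agent.N969.P15.symbM_of H) h14 ⟨hs, by omega⟩ hQ

/-- **The central value does not vanish.** -/
theorem value {n : ℕ} (hn : ClO n) (h3 : n ≠ 3) (hQ : Qc n) :
    ∃ f : ℂ → ℂ, Differentiable ℂ f ∧
      (∀ s : ℂ, (3 : ℝ) / 2 < s.re →
        HasProd (fun p : {p : ℕ // p.Prime ∧
            ¬ ((p : ℤ) ∣ 2 * (4 * (-12987 * (-(n : ℤ)) ^ 2) ^ 3 +
              27 * (-263466 * (-(n : ℤ)) ^ 3) ^ 2))} =>
          Pool.Agent.Y687.fac (-12987 * (-(n : ℤ)) ^ 2) (-263466 * (-(n : ℤ)) ^ 3) s p) (f s)) ∧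
      f 1 ≠ 0 := by
  obtain ⟨sp, sm, Op, Om, hOp, hOm, hII, -, -, hS⟩ :=
    Pool.Agent.N974.MF.exists_symb Pool.Agent.N975.Lat15.s_lat
  have hne := sum_ne' hS hn h3 hQ
  have hsq := hn.sq
  have h4 := hn.four
  refine Pool.Agent.N974.MF.exists_f_neO Pool.Agent.N975.Lat15.s_lat (-(n : ℤ)) ?_ ?_ ?_ hOp hOm
    hII (Or.inr ?_)
  · rw [← Int.squarefree_natAbs, Int.natAbs_neg, Int.natAbs_natCast]
    exact hsq
  · rw [Int.natAbs_neg, Int.natAbs_natCast]
    omega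
  · omega
  · rw [Int.natAbs_neg, Int.natAbs_natCast]
    exact hne

end Pool.Agent.H51.N15
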